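import Pool.Agent.LibAV75.B7
import Pool.Agent.LibAV75.E4

/-!
Approximation relative to two oracles (no sorries in this file).
-/

namespace Pool.Agent.LibAA75

open Filter Pool.Agent.LibNexp Pool.Agent.LibBHN
open Pool.Agent.LibAV75 (err)

/-- Every complement of a language in NEXP with oracle `X` is approximated by a language in NEXP with
oracle `Y`, from inside if `b`. -/
def Ap2 (X Y : List Bool → Bool) (b : Prop) (r : ℕ → ℕ) : Prop :=
  ∀ L ∈ NEXPLang X, ∃ N ∈ NEXPLang Y, (b → N ⊆ Lᶜ) ∧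
    ∀ᶠ m in atTop, 2 ^ r m * err Lᶜ N m ≤ 2 ^ m

/-- Complements of languages in NEXP with oracle `X` are in NEXP with oracle `Y` and `a n` bits of
advice, up to a constant. -/
def Enough2 (X Y : List Bool → Bool) (a : ℕ → ℕ) : Prop :=
  ∀ L ∈ NEXPLang X, ∃ c : ℕ, Lᶜ ∈ WithAdvice (NEXPLang Y) {f | ∀ n, (f n).length ≤ a n + c}

end Pool.Agent.LibAA75
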