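import Pool.Agent.LibAA75.D0

/-!
Row B1: visibility and certificates.
-/

namespace Pool.Agent.LibAA75

open Filter Function Pool.Agent.LibNexp Pool.Agent.LibBHN Pool.Agent.LibAL48
open Pool.Agent.LibAV75 (ex AccE code codes fib lay WL orc orc_iff err prog le_ex length_code
  code_head)

open Pool.Agent.LibAA59 (SysA Tab Same Fut Cert Sim)

variable {S : SysA}

/-- Programs see only low levels. -/
theorem accE_congr {W W' : S.W} {e : ℕ} {z : List Bool}
    (h : ∀ N < 2 ^ (ex e z.length + 1), W N = W' N) :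
    AccE (S.rich W) e z ↔ AccE (S.rich W') e z := by
  have h1 := le_ex e z.length
  have h2 : ex e z.length < 2 ^ ex e z.length := Nat.lt_two_pow_self
  have h3 : ∀ s : List Bool, s.length ≤ z.length + 2 ^ ex e z.length →
      S.rich W s = S.rich W' s := by
    intro s hs
    refine rich_agree (L := z.length + 2 ^ ex e z.length) (fun n hn => h n ?_) hs
    rw [pow_succ]
    omega
  unfold AccE
  exact ⟨acc_agree h3, acc_agree fun s hs => (h3 s hs).symm⟩

/-- Acceptance depends on few answers. -/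
theorem accE_cert (V : S.W) (N e : ℕ) (z : List Bool) :
    Cert (2 ^ ex e z.length) fun x : S.X N => AccE (S.rich (update V N x)) e z := by
  intro x hx
  obtain ⟨Z, hZ, h1⟩ := acc_use hx
  refine ⟨Z, hZ, fun x' hx' => h1 _ fun s hs => ?_⟩
  unfold Sys.rich
  by_cases hl : S.lv s = N
  · subst hl
    rw [update_self, update_self]
    exact hx'.an hs rfl
  · rw [update_of_ne hl, update_of_ne hl]

/-- Codes of statements with large exponents are long. -/
theorem codes_len {K : Set (ℕ × List Bool)} {a : ℕ} (hK : ∀ p ∈ K, a ≤ ex p.1 p.2.length)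
    {s : List Bool} (hs : s ∈ codes K) : 2 ^ (a + 1) ^ 2 < s.length := by
  obtain ⟨e, z, h1, rfl⟩ := hs
  have h2 := length_code e z
  have h3 : 2 ^ (a + 1) ^ 2 ≤ 2 ^ (ex e z.length + 1) ^ 2 :=
    Nat.pow_le_pow_right (by norm_num) (Nat.pow_le_pow_left (Nat.succ_le_succ (hK _ h1)) 2)
  omega

/-- Adding such codes does not change the low levels. -/
theorem cw_low {W : S.W} {K : Set (ℕ × List Bool)} {a N : ℕ}
    (hK : ∀ p ∈ K, a ≤ ex p.1 p.2.length) (hN : N ≤ 2 ^ (a + 1) ^ 2) : cw W K N = W N :=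
  cw_none fun s hs h => by
    have := codes_len hK hs
    omega

theorem mem_codes_union {K K' : Set (ℕ × List Bool)} {s : List Bool} :
    s ∈ codes (K ∪ K') ↔ s ∈ codes K ∨ s ∈ codes K' := by
  constructor
  · rintro ⟨e, z, h1 | h1, h2⟩
    · exact Or.inl ⟨e, z, h1, h2⟩
    · exact Or.inr ⟨e, z, h1, h2⟩
  · rintro (⟨e, z, h1, h2⟩ | ⟨e, z, h1, h2⟩)
    · exact ⟨e, z, Or.inl h1, h2⟩
    · exact ⟨e, z, Or.inr h1, h2⟩

/-- The level `n + 2 ^ n` of the witnesses is lower than the codes of the statements with exponent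
at least `n`. -/
theorem wit_le (n : ℕ) : n + 2 ^ n ≤ 2 ^ (n + 1) ^ 2 := by
  have h1 : n < 2 ^ n := Nat.lt_two_pow_self
  calc n + 2 ^ n ≤ 2 ^ n + 2 ^ n := by omega
    _ = 2 ^ (n + 1) := by rw [pow_succ]; ring
    _ ≤ 2 ^ (n + 1) ^ 2 := Nat.pow_le_pow_right (by norm_num) (by nlinarith)

theorem code_no_head {e : ℕ} {z : List Bool} (h : [true] <+: code e z) : False := by
  obtain ⟨l, hl⟩ := code_head e z
  rw [hl] at h
  obtain ⟨t, ht⟩ := h
  simp at ht

/-- The worlds with codes of `K` and `K'` are the same for programs which do not see the codes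
in which `K` and `K'` differ. -/
theorem accE_wd_congr {W : S.W} {K K' : Set (ℕ × List Bool)} {N : ℕ} {x : S.X N} {e : ℕ}
    {z : List Bool}
    (h : ∀ s : List Bool, s.length < 2 ^ (ex e z.length + 1) → (s ∈ codes K ↔ s ∈ codes K')) :
    AccE (S.rich (wd W K N x)) e z ↔ AccE (S.rich (wd W K' N x)) e z := by
  refine accE_congr fun M hM => ?_
  by_cases h1 : M = N
  · subst h1
    rw [wd_self, wd_self]
  · rw [wd_ne W K x h1, wd_ne W K' x h1]
    exact cw_congr fun s hs => h s (by omega)

end Pool.Agent.LibAA75
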