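import Pool.Agent.LibAA75.B3
import Pool.Agent.LibAV75.B10
import Pool.Agent.LibAV75.E1

/-!
Row B10: numbers.
-/

namespace Pool.Agent.LibAA75

open Filter Function Pool.Agent.LibNexp Pool.Agent.LibBHN Pool.Agent.LibAL48
open Pool.Agent.LibAV75 (ex AccE code codes fib lay WL orc orc_iff err prog le_ex length_code
  code_head code_injective code_far lay_mono lay_sq mem_fib card_fib fib_disjoint fib_head Old)
open Pool.Agent.LibAA59 (SysA Tab Same Fut Cert Sim Dead MM KK gb)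

variable {S : SysA}

private theorem B10_num {m q s : ℕ} (hm : 1 ≤ m) (hq : 1 ≤ q) :
    s + m * MM m q s + 1 ≤ 14 * (m ^ 4 * q ^ 3) * (s + 1) := by
  have h1 : s + q ≤ (s + 1) * q := by nlinarith
  have h2 : m * q + s + q + 2 ≤ 4 * (m * q) * (s + 1) := by
    have h3 : 1 ≤ m * q := Nat.mul_pos hm hq
    have h4 : q ≤ m * q := Nat.le_mul_of_pos_left _ hm
    nlinarith [Nat.mul_le_mul_right s h3]
  have h5 : KK m q s ≤ 6 * (m ^ 3 * q ^ 2) * (s + 1) := by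
    unfold KK
    have h6 : 1 ≤ m ^ 3 * q ^ 2 * (s + 1) := Nat.mul_pos (Nat.mul_pos (Nat.pow_pos hm)
      (Nat.pow_pos hq)) (Nat.succ_pos _)
    have h7 : m ^ 2 * (s + q) ≤ m ^ 3 * q ^ 2 * (s + 1) := by
      calc m ^ 2 * (s + q) ≤ m ^ 2 * ((s + 1) * q) := Nat.mul_le_mul_left _ h1
        _ = 1 * (m ^ 2 * q * (s + 1)) := by ring
        _ ≤ (m * q) * (m ^ 2 * q * (s + 1)) := Nat.mul_le_mul_right _ (Nat.mul_pos hm hq)
        _ = m ^ 3 * q ^ 2 * (s + 1) := by ring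
    have h8 : m ^ 2 * q * (m * q + s + q + 2) ≤ 4 * (m ^ 3 * q ^ 2 * (s + 1)) := by
      calc m ^ 2 * q * (m * q + s + q + 2) ≤ m ^ 2 * q * (4 * (m * q) * (s + 1)) :=
            Nat.mul_le_mul_left _ h2
        _ = 4 * (m ^ 3 * q ^ 2 * (s + 1)) := by ring
    calc m ^ 2 * (s + q) + m ^ 2 * q * (m * q + s + q + 2) + 1
        ≤ m ^ 3 * q ^ 2 * (s + 1) + 4 * (m ^ 3 * q ^ 2 * (s + 1)) + m ^ 3 * q ^ 2 * (s + 1) :=
          Nat.add_le_add (Nat.add_le_add h7 h8) h6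
      _ = 6 * (m ^ 3 * q ^ 2) * (s + 1) := by ring
  have h9 : 1 ≤ m ^ 3 * q ^ 3 := Nat.mul_pos (Nat.pow_pos hm) (Nat.pow_pos hq)
  have h10 : MM m q s ≤ 13 * (m ^ 3 * q ^ 3) * (s + 1) := by
    unfold MM
    calc 2 * (KK m q s * q) + s ≤ 2 * (6 * (m ^ 3 * q ^ 2) * (s + 1) * q) + 1 * (s + 1) :=
          Nat.add_le_add (Nat.mul_le_mul_left _ (Nat.mul_le_mul_right _ h5)) (by omega)
      _ ≤ 2 * (6 * (m ^ 3 * q ^ 2) * (s + 1) * q) + (m ^ 3 * q ^ 3) * (s + 1) :=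
          Nat.add_le_add_left (Nat.mul_le_mul_right _ h9) _
      _ = 13 * (m ^ 3 * q ^ 3) * (s + 1) := by ring
  have h11 : 1 ≤ m ^ 4 * q ^ 3 := Nat.mul_pos (Nat.pow_pos hm) (Nat.pow_pos hq)
  calc s + m * MM m q s + 1 = 1 * (s + 1) + m * MM m q s := by ring
    _ ≤ (m ^ 4 * q ^ 3) * (s + 1) + m * (13 * (m ^ 3 * q ^ 3) * (s + 1)) :=
        Nat.add_le_add (Nat.mul_le_mul_right _ h11) (Nat.mul_le_mul_left _ h10)
    _ = 14 * (m ^ 4 * q ^ 3) * (s + 1) := by ring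

/-- PLAN. Put `m := (i + 1) * 2 ^ L ≤ 2 ^ (L + i + 1)`, `q := 2 ^ L`, `B := 2 ^ c ≤ 2 ^ L`, `m, q ≥ 1`,
`σ := f + B * (m * q)`, so `s := σ + 1 ≤ 2 ^ (3 * L + i + 2) * (f + 1)`. Then `σ + q ≤ s * q`,
`m * q + σ + q + 2 ≤ s * (4 * (m * q))`, so `KK m q σ ≤ 6 * (m ^ 3 * q ^ 2) * s`,
`MM m q σ ≤ 13 * (m ^ 3 * q ^ 3) * s`, `gb + 1 ≤ 15 * (m ^ 4 * q ^ 3) * s ≤
2 ^ (4 + 4 * (L + i + 1) + 3 * L + 3 * L + i + 2) * (f + 1)`. -/
theorem fb_le {i c L f : ℕ} (hc : c ≤ L) :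
    fb (i + 1) c L f + 1 ≤ 2 ^ (10 * L + 5 * i + 12) * (f + 1) := by
  have hq : 1 ≤ 2 ^ L := Nat.one_le_two_pow
  have hm : 1 ≤ (i + 1) * 2 ^ L := Nat.mul_pos (Nat.succ_pos _) hq
  have hm2 : (i + 1) * 2 ^ L ≤ 2 ^ (L + (i + 1)) := by
    rw [pow_add, mul_comm (2 ^ L)]
    exact Nat.mul_le_mul_right _ (Nat.lt_two_pow_self (n := i + 1)).le
  have hB : 2 ^ c ≤ 2 ^ L := Nat.pow_le_pow_right (by norm_num) hc
  have h1 : 2 ^ c * ((i + 1) * 2 ^ L * 2 ^ L) ≤ 2 ^ (3 * L + (i + 1)) := by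
    calc 2 ^ c * ((i + 1) * 2 ^ L * 2 ^ L) ≤ 2 ^ L * (2 ^ (L + (i + 1)) * 2 ^ L) :=
          Nat.mul_le_mul hB (Nat.mul_le_mul_right _ hm2)
      _ = 2 ^ (3 * L + (i + 1)) := by
          rw [← pow_add, ← pow_add]
          congr 1
          ring
  have h2 : f + 2 ^ c * ((i + 1) * 2 ^ L * 2 ^ L) + 1 ≤ 2 ^ (3 * L + (i + 2)) * (f + 1) := by
    have h3 : 1 ≤ 2 ^ (3 * L + (i + 1)) := Nat.one_le_two_pow
    calc f + 2 ^ c * ((i + 1) * 2 ^ L * 2 ^ L) + 1 ≤ 1 * (f + 1) + 2 ^ (3 * L + (i + 1)) * 1 := by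
          omega
      _ ≤ 2 ^ (3 * L + (i + 1)) * (f + 1) + 2 ^ (3 * L + (i + 1)) * (f + 1) :=
          Nat.add_le_add (Nat.mul_le_mul_right _ h3) (Nat.mul_le_mul_left _ (by omega))
      _ = 2 ^ (3 * L + (i + 2)) * (f + 1) := by
          rw [show 3 * L + (i + 2) = (3 * L + (i + 1)) + 1 by ring, pow_succ]
          ring
  unfold fb gb
  calc f + 2 ^ c * ((i + 1) * 2 ^ L * 2 ^ L) + (i + 1) * 2 ^ L * MM ((i + 1) * 2 ^ L) (2 ^ L)
        (f + 2 ^ c * ((i + 1) * 2 ^ L * 2 ^ L)) + 1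
      ≤ 14 * (((i + 1) * 2 ^ L) ^ 4 * (2 ^ L) ^ 3) *
          (f + 2 ^ c * ((i + 1) * 2 ^ L * 2 ^ L) + 1) := B10_num hm hq
    _ ≤ 2 ^ 4 * ((2 ^ (L + (i + 1))) ^ 4 * (2 ^ L) ^ 3) * (2 ^ (3 * L + (i + 2)) * (f + 1)) :=
        Nat.mul_le_mul (Nat.mul_le_mul (by norm_num)
          (Nat.mul_le_mul_right _ (Nat.pow_le_pow_left hm2 4))) h2
    _ = 2 ^ (4 + ((L + (i + 1)) * 4 + L * 3) + (3 * L + (i + 2))) * (f + 1) := by
        rw [← pow_mul, ← pow_mul, ← pow_add, ← pow_add, ← mul_assoc, ← pow_add]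
    _ ≤ 2 ^ (10 * L + 5 * i + 12) * (f + 1) :=
        Nat.mul_le_mul_right _ (Nat.pow_le_pow_right (by norm_num) (by omega))

/-- PLAN. Induction on `d`: `(fb (i + 1) c L)^[d] 0 + 1 ≤ 2 ^ ((10 * L + 5 * i + 12) * d)`
(`Function.iterate_succ_apply'`, `fb_le`). -/
theorem fb_iter {i c L : ℕ} (hc : c ≤ L) (d : ℕ) :
    (fb (i + 1) c L)^[d] 0 + 1 ≤ 2 ^ ((10 * L + 5 * i + 12) * d) := by
  induction d with
  | zero => simp
  | succ d ih =>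
    rw [Function.iterate_succ_apply']
    calc fb (i + 1) c L ((fb (i + 1) c L)^[d] 0) + 1
        ≤ 2 ^ (10 * L + 5 * i + 12) * ((fb (i + 1) c L)^[d] 0 + 1) := fb_le hc
      _ ≤ 2 ^ (10 * L + 5 * i + 12) * 2 ^ ((10 * L + 5 * i + 12) * d) := Nat.mul_le_mul_left _ ih
      _ = 2 ^ ((10 * L + 5 * i + 12) * (d + 1)) := by rw [← pow_add]; congr 1; ring

private theorem B10_ev (K a b : ℕ) : ∀ᶠ n : ℕ in atTop, a * n ^ K + b < 2 ^ n := by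
  have h1 := (isLittleO_pow_const_const_pow_of_one_lt (R := ℝ) K (one_lt_two)).def
    (show (0 : ℝ) < 1 / (2 * (a + 1)) by positivity)
  have h2 : ∀ᶠ n : ℕ in atTop, 2 * b < n := eventually_gt_atTop _
  filter_upwards [h1, h2] with n h3 h4
  rw [Real.norm_of_nonneg (by positivity), Real.norm_of_nonneg (by positivity)] at h3
  have h5 : (n : ℝ) < 2 ^ n := by exact_mod_cast Nat.lt_two_pow_self
  have h6 : (2 * b : ℝ) < n := by exact_mod_cast h4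
  have h7 : (a : ℝ) * (n : ℝ) ^ K ≤ 2 ^ n / 2 := by
    calc (a : ℝ) * (n : ℝ) ^ K ≤ (a + 1) * (1 / (2 * (a + 1)) * 2 ^ n) := by
          gcongr
          linarith
      _ = 2 ^ n / 2 := by
          field_simp
  have h8 : ((a * n ^ K + b : ℕ) : ℝ) < ((2 ^ n : ℕ) : ℝ) := by
    push_cast
    linarith
  exact_mod_cast h8

/-- PLAN. As `LibAV75.e2_size` (LibAV75/E2.lean, proved): with `L := lay n (i + 3) = n ^ 2 ^ (i + 3)` the first left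
side is at most `2 ^ ((10 * L + 5 * i + 12) * (i + 3) + 1)` (`fb_iter`, `ex i (2 * n + 2 + a) ≤ L + (i + 1)`
for large `n`), and the exponent is less than `2 ^ n` for large `n` (`E2_ev (2 ^ (i + 3)) (10 * (i + 3))
((5 * i + 12) * (i + 3) + 1)`, copy this private lemma). The second part is in `e2_size`. -/
theorem e2_size (i : ℕ) : ∀ᶠ n in atTop, ∀ c ≤ n, ∀ a ≤ n,
    (fb (i + 1) c (lay n (i + 3)))^[i + 3] 0 + 2 ^ (a + 1) * 2 ^ ex i (2 * n + 2 + a) <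
      2 ^ 2 ^ n ∧
    2 ^ (ex i (2 * n + 2 + a) + 1) ≤ 2 ^ (lay n (i + 3) + 1) ^ 2 := by
  filter_upwards [B10_ev (2 ^ (i + 3)) (10 * (i + 3)) ((5 * i + 12) * (i + 3) + 1),
    eventually_ge_atTop (5 ^ (i + 1))] with n h1 hn c hc a ha
  have hi : i + 1 < 5 ^ (i + 1) := Nat.lt_pow_self (by norm_num)
  have hn1 : 1 ≤ n := by omega
  have h2 : n ≤ lay n (i + 3) := by
    unfold lay
    calc n = n ^ 1 := (pow_one n).symm
      _ ≤ n ^ 2 ^ (i + 3) := Nat.pow_le_pow_right hn1 Nat.one_le_two_pow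
  have h3 : (2 * n + 2 + a) ^ (i + 1) ≤ lay n (i + 3) := by
    calc (2 * n + 2 + a) ^ (i + 1) ≤ (5 * n) ^ (i + 1) :=
          Nat.pow_le_pow_left (by omega) _
      _ = 5 ^ (i + 1) * n ^ (i + 1) := mul_pow _ _ _
      _ ≤ n * n ^ (i + 1) := Nat.mul_le_mul_right _ hn
      _ = n ^ (i + 2) := by rw [← pow_succ']
      _ ≤ lay n (i + 3) := by
          unfold lay
          refine Nat.pow_le_pow_right hn1 ?_
          have : i + 3 < 2 ^ (i + 3) := Nat.lt_two_pow_self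
          omega
  have hL : 10 * (i + 3) * lay n (i + 3) + ((5 * i + 12) * (i + 3) + 1) < 2 ^ n := h1
  have hex : ex i (2 * n + 2 + a) ≤ lay n (i + 3) + (i + 1) := by
    unfold ex
    omega
  generalize lay n (i + 3) = L at h2 h3 hL hex ⊢
  refine ⟨?_, Nat.pow_le_pow_right (by norm_num) (by nlinarith)⟩
  have a6 := fb_iter (i := i) (c := c) (L := L) (hc.trans h2) (i + 3)
  have a7 : 2 ^ (a + 1) * 2 ^ ex i (2 * n + 2 + a) ≤ 2 ^ ((10 * L + 5 * i + 12) * (i + 3)) := by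
    rw [← pow_add]
    refine Nat.pow_le_pow_right (by norm_num) ?_
    nlinarith
  have a8 : (10 * L + 5 * i + 12) * (i + 3) + 1 < 2 ^ n := by
    refine lt_of_le_of_lt (le_of_eq ?_) hL
    ring
  calc (fb (i + 1) c L)^[i + 3] 0 + 2 ^ (a + 1) * 2 ^ ex i (2 * n + 2 + a)
      < 2 ^ ((10 * L + 5 * i + 12) * (i + 3)) + 2 ^ ((10 * L + 5 * i + 12) * (i + 3)) := by
        omega
    _ = 2 ^ ((10 * L + 5 * i + 12) * (i + 3) + 1) := by rw [pow_succ]; ring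
    _ < 2 ^ 2 ^ n := Nat.pow_lt_pow_right (by norm_num) a8

/-- PLAN. `e2_size` with `a := n`, `LibAV75.ex_mono`. -/
theorem b10_size (i : ℕ) : ∀ᶠ n in atTop, ∀ c ≤ n,
    (fb (i + 1) c (lay n (i + 3)))^[i + 3] 0 + 2 ^ n * 2 ^ ex i n < 2 ^ 2 ^ n := by
  filter_upwards [e2_size i] with n h c hc
  refine lt_of_le_of_lt (Nat.add_le_add_left (Nat.mul_le_mul ?_ ?_) _) (h c hc n le_rfl).1
  · exact Nat.pow_le_pow_right (by norm_num) (Nat.le_succ n)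
  · refine Nat.pow_le_pow_right (by norm_num) ?_
    unfold ex
    exact Nat.add_le_add_right (Nat.pow_le_pow_left (by omega) _) _

end Pool.Agent.LibAA75
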