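import Pool.Agent.LibAA75.ApDefs

/-!
Row B8: the complements are approximated from inside.
-/

namespace Pool.Agent.LibAA75

open Filter Function Pool.Agent.LibNexp Pool.Agent.LibBHN
open Pool.Agent.LibAV75 (ex AccE code codes fib lay WL orc orc_iff err le_ex code_mem
  exists_machine)

private theorem B8_congr {m : ℕ} {P Q : List Bool → Prop}
    (h : ∀ z : List Bool, z.length = m → (P z ↔ Q z)) : cnt m P = cnt m Q := by
  classical
  unfold cnt
  congr 1
  ext k
  simp only [Finset.mem_filter, Finset.mem_range]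
  exact and_congr_right fun _ => h _ (length_bits m k)

private theorem B8_zero {m : ℕ} {P : List Bool → Prop}
    (h : ∀ z : List Bool, z.length = m → ¬ P z) : cnt m P = 0 := by
  classical
  unfold cnt
  rw [Finset.card_eq_zero, Finset.filter_eq_empty_iff]
  exact fun k _ => h _ (length_bits m k)

/-- PLAN. Exactly `LibAV75.b8` (LibAV75/B8.lean, proved), with the oracle `X` in the place of `orc A` for the
machines: `L` is the language of machine `e` with oracle `X` (`exists_machine`);
`N := {z | code e z ∈ A} ∈ NEXPLang (orc A)` (`code_mem`). -/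
theorem b8 {n E R D : ℕ → ℕ} {r : ℕ → ℕ} {X : List Bool → Bool} {A : Set (List Bool)}
    (hr : Monotone r) (hn : StrictMono n) (hE : ∀ e, ∀ᶠ i in atTop, e < E i)
    (hR : ∀ i, r (lay (n i) (D i)) ≤ R i)
    (h1 : ∀ l, false :: l ∈ A → ∃ e z, false :: l = code e z)
    (h2 : ∀ (e : ℕ) (z : List Bool), code e z ∈ A → ¬ AccE X e z)
    (h3 : ∀ (i e : ℕ) (z : List Bool), lay (n i) (D i) ≤ ex e z.length →
      ex e z.length < n (i + 1) → ¬ AccE X e z → code e z ∈ A)
    (h4 : ∀ i, ∀ e < E i, ∀ m, n i ≤ ex e m → ex e m < lay (n i) (D i) →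
      2 ^ R i * cnt m (fun z => ¬ AccE X e z ∧ code e z ∉ A) ≤ 2 ^ m) :
    Ap2 X (orc A) True r := by
  intro L hL
  obtain ⟨e, -, he⟩ := exists_machine hL 0
  refine ⟨{z | code e z ∈ A}, code_mem h1 e, ?_, ?_⟩
  · intro _ z hz hzL
    exact h2 e z hz ((he z).1 hzL)
  obtain ⟨i₀, hi₀⟩ := eventually_atTop.1 (hE e)
  refine eventually_atTop.2 ⟨n i₀, fun m hm => ?_⟩
  have herr : err Lᶜ {z | code e z ∈ A} m =
      cnt m (fun z => ¬ AccE X e z ∧ code e z ∉ A) := by
    unfold err
    refine B8_congr fun z _ => ?_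
    have h3' : z ∈ Lᶜ ↔ ¬ AccE X e z := by
      rw [Set.mem_compl_iff, he z]
    have h4' : z ∈ ({z | code e z ∈ A} : Set (List Bool)) ↔ code e z ∈ A := Iff.rfl
    rw [h3', h4']
    constructor
    · intro h
      by_cases hA : AccE X e z
      · exact absurd ⟨fun h' => absurd hA h', fun h' => absurd hA (h2 e z h')⟩ h
      · exact ⟨hA, fun h' => h ⟨fun _ => h', fun _ => hA⟩⟩
    · rintro ⟨h5, h6⟩ h7
      exact h6 (h7.1 h5)
  rw [herr]
  have hex : m < ex e m := le_ex e m
  have hfind : ∃ k, ex e m < n k := ⟨ex e m + 1, (Nat.lt_succ_self _).trans_le (hn.le_apply)⟩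
  classical
  set k := Nat.find hfind with hk
  have hk1 : ex e m < n k := Nat.find_spec hfind
  have hk2 : i₀ < k := by
    by_contra hcon
    push Not at hcon
    have := hn.monotone hcon
    omega
  obtain ⟨i, hi⟩ : ∃ i, k = i + 1 := ⟨k - 1, by omega⟩
  have hi0 : i₀ ≤ i := by omega
  have hni : n i ≤ ex e m := by
    by_contra hcon
    push Not at hcon
    exact Nat.find_min hfind (m := i) (by omega) hcon
  rw [hi] at hk1
  by_cases hlay : ex e m < lay (n i) (D i)
  · have h5 := h4 i e (hi₀ i hi0) m hni hlay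
    have h6 : r m ≤ R i := (hr (by omega)).trans (hR i)
    exact (Nat.mul_le_mul_right _ (Nat.pow_le_pow_right two_pos h6)).trans h5
  · push Not at hlay
    rw [B8_zero fun z hz h => ?_, mul_zero]
    · exact Nat.zero_le _
    · exact h.2 (h3 i e z (by rw [hz]; exact hlay) (by rw [hz]; exact hk1) h.1)

end Pool.Agent.LibAA75
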