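import Pool.Agent.LibAA75.B5D

/-!
Row B9: many errors can be forced.
-/

namespace Pool.Agent.LibAA75

open Filter Function Pool.Agent.LibNexp Pool.Agent.LibBHN Pool.Agent.LibAL48
open Pool.Agent.LibAV75 (ex AccE code codes fib lay WL orc orc_iff err prog le_ex length_code
  code_head code_injective code_far lay_mono lay_sq mem_fib card_fib fib_disjoint fib_head Old)
open Pool.Agent.LibAA59 (SysA Tab Same Fut Cert Sim Dead MM KK gb)

variable {S : SysA}

/-- Machine number `j` (with the rich oracle) agrees with the language of witnesses (with the plain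
oracle) on at least `2 ^ t / 2` strings of length `n`. -/
def GH (j n t : ℕ) (W : S.W) : Prop :=
  2 ^ t ≤ 2 * cnt n fun u => [true] <+: u ∧ (AccE (S.rich W) j u ↔ u ∈ WL (S.plain W))

private theorem B9_congr {m : ℕ} {P Q : List Bool → Prop}
    (h : ∀ z : List Bool, z.length = m → (P z ↔ Q z)) : cnt m P = cnt m Q := by
  classical
  unfold cnt
  congr 1
  ext k
  simp only [Finset.mem_filter, Finset.mem_range]
  exact and_congr_right fun _ => h _ (length_bits m k)

private theorem B9_card_le {n : ℕ} {P : List Bool → Prop} (S : Finset (List Bool))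
    (hS : ∀ x ∈ S, x.length = n ∧ P x) : S.card ≤ cnt n P := by
  classical
  unfold cnt
  refine Finset.card_le_card_of_injOn val (fun x hx => ?_) (fun x hx y hy hxy => ?_)
  · obtain ⟨h1, h2⟩ := hS x hx
    rw [Finset.mem_coe, Finset.mem_filter, Finset.mem_range]
    subst h1
    refine ⟨cnt_val_lt x, ?_⟩
    rw [bits_val]
    exact h2
  · have h1 := (hS x hx).1
    have h2 := (hS y hy).1
    rw [← bits_val x, ← bits_val y, h1, h2, hxy]

/-- Membership in the language of witnesses. PLAN. As `B9_wl` in LibAV75/B9.lean; a witness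
`u ++ w` of `u` has length `n + 2 ^ n`: `mem_fib`, `mem_ps_len` (`S.plain W s = true` is `s ∈ ps W` by
definition). -/
theorem wl_iff {W : S.W} {n : ℕ} {u : List Bool} (hn : u.length = n) (hu : [true] <+: u) :
    u ∈ WL (S.plain W) ↔ ∃ s ∈ fib u, s ∈ Tab (W (n + 2 ^ n)) := by
  constructor
  · rintro ⟨-, w, hw, h⟩
    refine ⟨u ++ w, mem_fib.2 ⟨w, hw, rfl⟩, ?_⟩
    refine (mem_ps_len (W := W) ?_).1 h
    rw [List.length_append, hw, hn]
  · rintro ⟨s, hs, hB⟩
    obtain ⟨w, hw, rfl⟩ := mem_fib.1 hs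
    refine ⟨hu, w, hw, ?_⟩
    refine (mem_ps_len (W := W) ?_).2 hB
    rw [List.length_append, hw, hn]

/-- PLAN. As `LibAV75.gh_forced` (LibAV75/B9.lean, proved), with `LibAA59.a5`:
`acc u x := AccE (S.rich (update V (n + 2 ^ n) x)) j u`, certificates `accE_cert`; `wl_iff` with
`update_self`. -/
theorem gh_forced {j n t fbd : ℕ} (h : fbd + 2 ^ n * 2 ^ ex j n < 2 ^ 2 ^ n) :
    Forced (S := S) n t fbd (GH j n t) := by
  classical
  intro V F I hI hcard hF hfree
  have hIn : I.card ≤ 2 ^ n := by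
    rw [← card_strs n]
    exact Finset.card_le_card fun x hx => mem_strs.2 (hI x hx).1
  obtain ⟨x, hx1, hx2⟩ := LibAA59.a5 I
    (fun u (x : S.X (n + 2 ^ n)) => AccE (S.rich (update V (n + 2 ^ n) x)) j u) fib
    (fun u hu s hs => by
      rw [(fib_head (hI u hu).2 hs).2, (hI u hu).1])
    (q := 2 ^ ex j n) (fun u hu => by
      have h1 := accE_cert V (n + 2 ^ n) j u
      rw [(hI u hu).1] at h1
      exact h1) (V (n + 2 ^ n)) F hfree
    (fun u hu => by
      rw [card_fib, (hI u hu).1]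
      have h1 : I.card * 2 ^ ex j n ≤ 2 ^ n * 2 ^ ex j n := Nat.mul_le_mul_right _ hIn
      omega)
  refine ⟨x, hx1, ?_⟩
  show 2 ^ t ≤ 2 * cnt n fun u => [true] <+: u ∧
    (AccE (S.rich (update V (n + 2 ^ n) x)) j u ↔ u ∈ WL (S.plain (update V (n + 2 ^ n) x)))
  refine hcard.trans (hx2.trans (Nat.mul_le_mul_left 2 ?_))
  refine B9_card_le _ fun u hu => ?_
  rw [Finset.mem_filter] at hu
  obtain ⟨huI, hu2⟩ := hu
  refine ⟨(hI u huI).1, (hI u huI).2, ?_⟩
  rw [wl_iff (hI u huI).1 (hI u huI).2, update_self]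
  exact hu2

/-- PLAN. As `LibAV75.gh_local`: `accE_congr`; `wl_iff` (level `n + 2 ^ n < M`). -/
theorem gh_local {j n t M : ℕ} (h1 : 2 ^ (ex j n + 1) ≤ M) (h2 : n + 2 ^ n < M) :
    Local (S := S) M (GH j n t) := by
  intro W W' hWW hG
  show 2 ^ t ≤ 2 * cnt n fun u => [true] <+: u ∧ (AccE (S.rich W') j u ↔ u ∈ WL (S.plain W'))
  have hG' : 2 ^ t ≤ 2 * cnt n fun u => [true] <+: u ∧
      (AccE (S.rich W) j u ↔ u ∈ WL (S.plain W)) := hG
  rw [← B9_congr (P := fun u => [true] <+: u ∧ (AccE (S.rich W) j u ↔ u ∈ WL (S.plain W)))]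
  · exact hG'
  intro u hu
  refine and_congr_right fun hu1 => ?_
  have e1 : AccE (S.rich W) j u ↔ AccE (S.rich W') j u := by
    refine accE_congr fun N hN => hWW N ?_
    rw [hu] at hN
    exact hN.trans_le h1
  have e2 : u ∈ WL (S.plain W) ↔ u ∈ WL (S.plain W') := by
    rw [wl_iff hu hu1, wl_iff hu hu1, hWW _ h2]
  rw [e1, e2]

end Pool.Agent.LibAA75
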