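import Pool.Agent.LibAA75.B6
import Pool.Agent.LibAA75.B8
import Pool.Agent.LibAA75.B9
import Pool.Agent.LibAA75.B10

/-!
Row B11: the world.
-/

namespace Pool.Agent.LibAA75

open Filter Function Pool.Agent.LibNexp Pool.Agent.LibBHN Pool.Agent.LibAL48
open Pool.Agent.LibAV75 (ex AccE code codes fib lay WL orc orc_iff err prog le_ex length_code
  code_head code_injective code_far lay_mono lay_sq mem_fib card_fib fib_disjoint fib_head Old)
open Pool.Agent.LibAA59 (SysA Tab Same Fut Cert Sim Dead MM KK gb)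

variable {S : SysA}

private theorem b11_cnt_mono {n : ℕ} {P Q : List Bool → Prop} (h : ∀ x, P x → Q x) :
    cnt n P ≤ cnt n Q := by
  unfold cnt
  refine Finset.card_le_card fun m hm => ?_
  simp only [Finset.mem_filter] at hm ⊢
  exact ⟨hm.1, h _ hm.2⟩

/-- PLAN. As `LibAV75.negH` (LibAV75/B11.lean, proved: copy it), with `b10_size`, `b6`, `b8`, `gh_forced`,
`gh_local` of this library; `LibAV75.CC`, `b10_beta`, `b10_vis`, `wl_mem`, `exists_machine` unchanged
(`X := S.rich W`, `A := ps W`, `orc (ps W) = S.plain W`: `orc_ps`). If `Ap2 (S.plain W) (S.rich W) False s`: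
apply it to `WL (S.plain W)` (`wl_mem`). -/
theorem negH (S : SysA) (hS : Sim S) {r s : ℕ → ℕ} (hr : Monotone r)
    (hs : ∀ C : ℕ, ∃ᶠ n in atTop, C * (r (n ^ C) + Nat.log 2 (n + 1)) < min (s n) (n + 1)) :
    ∃ W : S.W, Ap2 (S.rich W) (S.plain W) True r ∧ ¬ Ap2 (S.plain W) (S.rich W) False s := by
  have hgood : ∀ i b : ℕ, ∃ n ≥ b,
      LibAV75.CC i * (r (n ^ LibAV75.CC i) + Nat.log 2 (n + 1)) < min (s n) (n + 1) ∧
      (∀ c ≤ n, (fb (i + 1) c (lay n (i + 3)))^[i + 3] 0 + 2 ^ n * 2 ^ ex i n < 2 ^ 2 ^ n) := by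
    intro i b
    exact Filter.frequently_atTop.1 ((hs (LibAV75.CC i)).and_eventually (b10_size i)) b
  choose f hf1 hf2 hf3 using hgood
  obtain ⟨n, hn0, hnS⟩ : ∃ n : ℕ → ℕ, n 0 = f 0 2 ∧
      ∀ i, n (i + 1) = f (i + 1) (max (i + 3) ((lay (n i) (i + 3) + 1) ^ 2)) :=
    ⟨fun i => Nat.rec (f 0 2) (fun i m => f (i + 1) (max (i + 3) ((lay m (i + 3) + 1) ^ 2))) i,
      rfl, fun _ => rfl⟩
  have hni : ∀ i, i + 2 ≤ n i := by
    intro i
    cases i with
    | zero => rw [hn0]; exact hf1 0 2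
    | succ i =>
      rw [hnS]
      exact le_trans (le_max_left _ _) (hf1 (i + 1) _)
  have hnn : ∀ i, (lay (n i) (i + 3) + 1) ^ 2 ≤ n (i + 1) := by
    intro i
    rw [hnS]
    exact le_trans (le_max_right _ _) (hf1 (i + 1) _)
  have h2 : ∀ i, LibAV75.CC i * (r (n i ^ LibAV75.CC i) + Nat.log 2 (n i + 1)) < min (s (n i)) (n i + 1) := by
    intro i
    cases i with
    | zero => rw [hn0]; exact hf2 0 2
    | succ i => rw [hnS]; exact hf2 (i + 1) _
  have h3 : ∀ i, ∀ c ≤ n i,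
      (fb (i + 1) c (lay (n i) (i + 3)))^[i + 3] 0 + 2 ^ n i * 2 ^ ex i (n i) < 2 ^ 2 ^ n i := by
    intro i
    cases i with
    | zero => rw [hn0]; exact hf3 0 2
    | succ i => rw [hnS]; exact hf3 (i + 1) _
  have hsm : StrictMono n := by
    refine strictMono_nat_of_lt_succ fun i => ?_
    refine lt_of_lt_of_le ?_ (hnn i)
    have h4 : n i ≤ lay (n i) (i + 3) := by
      unfold lay
      exact Nat.le_self_pow (by positivity) _
    nlinarith
  have hb : ∀ i, ∃ β, (i + 1) * lay (n i) (i + 3) ≤ 2 ^ β ∧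
      ∀ R, (i + 3) * (R + β) + 3 ≤ LibAV75.CC i * (R + Nat.log 2 (n i + 1)) :=
    fun i => LibAV75.b10_beta (by have := hni i; omega)
  choose β hβ1 hβ2 using hb
  have hvis : ∀ i, _ := fun i => LibAV75.b10_vis (i := i) (n := n i) (by have := hni i; omega)
    (by have := hni i; omega)
  have hkey : ∀ i, (i + 3) * (r (lay (n i) (i + 3)) + β i) + 3 < min (s (n i)) (n i + 1) := by
    intro i
    have h5 : r (lay (n i) (i + 3)) ≤ r (n i ^ LibAV75.CC i) := hr (hvis i).2.2
    calc (i + 3) * (r (lay (n i) (i + 3)) + β i) + 3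
        ≤ (i + 3) * (r (n i ^ LibAV75.CC i) + β i) + 3 := by gcongr
      _ ≤ LibAV75.CC i * (r (n i ^ LibAV75.CC i) + Nat.log 2 (n i + 1)) := hβ2 i _
      _ < _ := h2 i
  obtain ⟨W, hA1, hA2, hA3, hA4, hA5⟩ := b6 hS (n := n) (E := fun i => i + 1)
    (R := fun i => r (lay (n i) (i + 3))) (D := fun i => i + 3) (β := β)
    (y := fun i => n i + 2 - min (s (n i)) (n i + 1))
    (G := fun i => GH i (n i) (n i + 2 - min (s (n i)) (n i + 1)))
    (fun i => by have := hni i; omega) hnn hβ1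
    (fun i => by
      have h6 := hkey i
      omega)
    (fun i => by
      refine gh_forced (h3 i _ ?_)
      have h6 := hkey i
      have h7 : r (lay (n i) (i + 3)) + β i ≤ (i + 3) * (r (lay (n i) (i + 3)) + β i) :=
        Nat.le_mul_of_pos_left _ (by omega)
      omega)
    (fun i => gh_local (hvis i).1 (hvis i).2.1)
  have hAp : Ap2 (S.rich W) (orc (ps W)) True r :=
    b8 (E := fun i => i + 1) hr hsm (fun e => by
      filter_upwards [eventually_ge_atTop e] with i hi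
      omega) (fun i => le_rfl) hA1 hA2 hA3 hA4
  rw [orc_ps] at hAp
  refine ⟨W, hAp, ?_⟩
  · intro hH
    obtain ⟨N, hN, -, hev⟩ := hH (WL (S.plain W)) (LibAV75.wl_mem _)
    obtain ⟨m₀, hm₀⟩ := Filter.eventually_atTop.1 hev
    obtain ⟨i, hi, hiN⟩ := LibAV75.exists_machine hN m₀
    have h8 := hm₀ (n i) (by have := hni i; omega)
    have h9 : GH i (n i) (n i + 2 - min (s (n i)) (n i + 1)) W := hA5 i
    unfold GH at h9
    have h10 : cnt (n i) (fun x => [true] <+: x ∧ (AccE (S.rich W) i x ↔ x ∈ WL (S.plain W))) ≤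
        err (WL (S.plain W))ᶜ N (n i) := by
      refine b11_cnt_mono fun x hx => ?_
      rw [hiN, Set.mem_compl_iff, ← hx.2]
      tauto
    have h11 : 2 ^ (s (n i) + (n i + 2 - min (s (n i)) (n i + 1))) ≤ 2 ^ (n i + 1) := by
      calc 2 ^ (s (n i) + (n i + 2 - min (s (n i)) (n i + 1)))
          = 2 ^ s (n i) * 2 ^ (n i + 2 - min (s (n i)) (n i + 1)) := pow_add _ _ _
        _ ≤ 2 ^ s (n i) * (2 * err (WL (S.plain W))ᶜ N (n i)) :=
            Nat.mul_le_mul_left _ (h9.trans (Nat.mul_le_mul_left _ h10))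
        _ = 2 * (2 ^ s (n i) * err (WL (S.plain W))ᶜ N (n i)) := by ring
        _ ≤ 2 * 2 ^ n i := Nat.mul_le_mul_left _ h8
        _ = 2 ^ (n i + 1) := by ring
    have h12 := (Nat.pow_le_pow_iff_right (by norm_num)).1 h11
    omega

end Pool.Agent.LibAA75
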