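import Pool.Agent.LibAA75.B1

/-!
Row B2: one layer.
-/

namespace Pool.Agent.LibAA75

open Filter Function Pool.Agent.LibNexp Pool.Agent.LibBHN Pool.Agent.LibAL48
open Pool.Agent.LibAV75 (ex AccE code codes fib lay WL orc orc_iff err prog le_ex length_code
  code_head code_injective code_far lay_mono lay_sq mem_fib card_fib fib_disjoint fib_head Old)
open Pool.Agent.LibAA59 (SysA Tab Same Fut Cert Sim Dead MM KK gb)

variable {S : SysA}

/-- The state of stage `n` after `l` layers: `K` the coded statements, `x` the present world at the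
level `n + 2 ^ n`, `F` the frozen queries, `I` the free strings `u`. The machines with number `< E` are
handled. -/
structure LState (n E R : ℕ) (W : S.W) (l : ℕ) (K : Finset (ℕ × List Bool)) (x : S.X (n + 2 ^ n))
    (F I : Finset (List Bool)) : Prop where
  K_lay : ∀ p ∈ K, n ≤ ex p.1 p.2.length ∧ ex p.1 p.2.length < lay n l
  sub : Tab (W (n + 2 ^ n)) ⊆ Tab x
  reg : ∀ s ∈ Tab x, s ∈ Tab (W (n + 2 ^ n)) ∨ [true] <+: s
  I_str : ∀ u ∈ I, u.length = n ∧ [true] <+: u
  free : ∀ u ∈ I, ∀ s ∈ fib u, s ∉ Tab x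
  sound : ∀ p ∈ K, ∀ x', Fut x F (I.biUnion fib) x' →
    ¬ AccE (S.rich (wd W (K : Set (ℕ × List Bool)) (n + 2 ^ n) x')) p.1 p.2
  few : ∀ e < E, ∀ m, n ≤ ex e m → ex e m < lay n l →
    2 ^ R * cnt m (fun z => (e, z) ∉ K ∧ ¬ ∀ x', Fut x F (I.biUnion fib) x' →
      AccE (S.rich (wd W (K : Set (ℕ × List Bool)) (n + 2 ^ n) x')) e z) ≤ 2 ^ m

/-- The protected set after one layer. -/
def fb (E c L f : ℕ) : ℕ := gb (E * 2 ^ L) (2 ^ L) (2 ^ c) f

/-- PLAN. As `LibAV75.b2` (LibAV75/B2.lean, proved: read it, the proof is the same with the following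
changes). Put `N₀ := n + 2 ^ n`, `L := lay n (l + 1)`, `B := 2 ^ (R + β)`. Same items `Z`, groups, blocks `Y b`
and `Reg b := (Y b).biUnion fib`. `acc z x' := AccE (S.rich (wd W K N₀ x')) z.1 z.2`; certificates:
`accE_cert (cw W K) N₀ e z` (`wd W K N₀ x' = update (cw W K) N₀ x'` by definition), monotone in `q` (put a
`private` lemma, one line). Apply `LibAA59.a4 hS` with `m := E * 2 ^ L`: `b`, `x'`, `F'`, `D`;
`K' := K ∪ D`, `I' := Y b`. The strings of `Tab x' \ Tab x` lie in `Reg b'` with `b' < b` (`Fut`), so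
`fib u` is disjoint from `Tab x'` for `u ∈ Y b` (`free`, `fib_disjoint`).
* Invisible codes: `AccE (S.rich (wd W (K ∪ D) N₀ y)) e z ↔ AccE (S.rich (wd W K N₀ y)) e z` if
  `ex e |z| < L`: `accE_wd_congr` and `mem_codes_union`; a code of `D` is longer than `2 ^ (ex e |z| + 1)`
  (as in the template).
* Old additions: if `Fut x' F' (Reg b) y` then `Fut x F (I.biUnion fib) y` (`Fut.mono` for both regions,
  `Fut.trans`).
* `reg`: strings of `fib u`, `u ∈ I`, start with `true` (`fib_head`).
The rest as in the template; the bound is that of `a4` (`gb` is in the same form; monotonicity is not needed, as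
`Z.card ≤ m` is a hypothesis of `a4`). -/
theorem b2 (hS : Sim S) {n E R β y l : ℕ} (hn : 1 ≤ n) {W : S.W} {K : Finset (ℕ × List Bool)}
    {x : S.X (n + 2 ^ n)} {F I : Finset (List Bool)} (h : LState n E R W l K x F I)
    (hβ : E * lay n (l + 1) ≤ 2 ^ β) (hI : 2 ^ (y + (R + β)) ≤ I.card) :
    ∃ (K' : Finset (ℕ × List Bool)) (x' : S.X (n + 2 ^ n)) (F' I' : Finset (List Bool)),
      LState n E R W (l + 1) K' x' F' I' ∧ 2 ^ y ≤ I'.card ∧
      F'.card ≤ fb E (R + β) (lay n (l + 1)) F.card := by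
  classical
  set L : ℕ := lay n (l + 1) with hL
  set L0 : ℕ := lay n l with hL0
  have hLL0 : L = L0 ^ 2 := lay_sq n l
  have hL0L : L0 ≤ L := lay_mono hn (Nat.le_succ l)
  have hnL0 : n ≤ L0 := by
    have h1 := lay_mono hn (Nat.zero_le l)
    have h2 : lay n 0 = n := by simp [lay]
    rw [h2] at h1
    exact h1
  set B : ℕ := 2 ^ (R + β) with hB
  set q : ℕ := 2 ^ L with hq
  set Z : Finset (ℕ × List Bool) := (Finset.range E ×ˢ (Finset.range L).biUnion strs).filter
    fun p => L0 ≤ ex p.1 p.2.length ∧ ex p.1 p.2.length < L with hZ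
  have hZmem : ∀ p : ℕ × List Bool, p ∈ Z ↔ p.1 < E ∧ L0 ≤ ex p.1 p.2.length ∧
      ex p.1 p.2.length < L := by
    intro p
    rw [hZ, Finset.mem_filter, Finset.mem_product, Finset.mem_range, Finset.mem_biUnion]
    constructor
    · rintro ⟨⟨h1, -⟩, h2⟩
      exact ⟨h1, h2⟩
    · rintro ⟨h1, h2⟩
      refine ⟨⟨h1, p.2.length, ?_, mem_strs.2 rfl⟩, h2⟩
      rw [Finset.mem_range]
      exact (le_ex p.1 p.2.length).trans h2.2
  have hZcard : Z.card ≤ E * 2 ^ L := by
    refine (Finset.card_filter_le _ _).trans ?_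
    rw [Finset.card_product, Finset.card_range]
    exact Nat.mul_le_mul_left _ (Pool.Agent.LibAV75.B2_strs_card L)
  set acc : ℕ × List Bool → S.X (n + 2 ^ n) → Prop := fun p v =>
    AccE (S.rich (wd W (K : Set (ℕ × List Bool)) (n + 2 ^ n) v)) p.1 p.2 with hacc
  have hcert : ∀ z ∈ Z, Cert q (acc z) := by
    intro z hz
    have h1 := ((hZmem z).1 hz).2.2
    intro v hv
    obtain ⟨C, hC, h2⟩ := accE_cert (cw W (K : Set (ℕ × List Bool))) (n + 2 ^ n) z.1 z.2 v hv
    exact ⟨C, hC.trans (Nat.pow_le_pow_right (by norm_num) h1.le), h2⟩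
  set gr : ℕ × List Bool → ℕ × ℕ := fun p => (p.1, p.2.length) with hgr
  set Γ : Finset (ℕ × ℕ) := Finset.range E ×ˢ Finset.range L with hΓ
  have hN : ∀ g ∈ Γ, (Z.filter fun z => gr z = g).card ≤ (fun g : ℕ × ℕ => 2 ^ g.2) g := by
    intro g _
    show (Z.filter fun z => gr z = g).card ≤ 2 ^ g.2
    rw [← card_strs g.2]
    refine Finset.card_le_card_of_injOn (fun z => z.2) ?_ ?_
    · intro z hz
      have hz' := (Finset.mem_filter.1 (Finset.mem_coe.1 hz)).2
      rw [Finset.mem_coe, mem_strs, ← hz']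
    · intro z hz z' hz' hzz
      have h1 := (Finset.mem_filter.1 (Finset.mem_coe.1 hz)).2
      have h2 := (Finset.mem_filter.1 (Finset.mem_coe.1 hz')).2
      refine Prod.ext ?_ hzz
      have h3 : (gr z).1 = (gr z').1 := by rw [h1, h2]
      exact h3
  have hΓB : 2 ^ R * Γ.card ≤ B := by
    rw [hΓ, Finset.card_product, Finset.card_range, Finset.card_range, hB, pow_add]
    exact Nat.mul_le_mul_left _ hβ
  obtain ⟨Y, hY, hYd⟩ := Pool.Agent.LibAV75.B2_blocks (2 ^ y) B I (by
    rw [hB, ← pow_add, Nat.add_comm]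
    exact hI)
  set Reg : ℕ → Finset (List Bool) := fun b => (Y b).biUnion fib with hReg
  have hfd : ∀ u ∈ I, ∀ u' ∈ I, u ≠ u' → Disjoint (fib u) (fib u') := by
    intro u hu u' hu' hne
    exact fib_disjoint (by rw [(h.I_str u hu).1, (h.I_str u' hu').1]) hne
  have hdis : ∀ b < B, ∀ b' < b, Disjoint (Reg b) (Reg b') := by
    intro b hb b' hb'
    rw [Finset.disjoint_left]
    intro s hs hs'
    obtain ⟨u, hu, hus⟩ := Finset.mem_biUnion.1 hs
    obtain ⟨u', hu', hus'⟩ := Finset.mem_biUnion.1 hs'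
    have hne : u ≠ u' := by
      rintro rfl
      exact Finset.disjoint_left.1 (hYd b hb b' hb') hu hu'
    exact Finset.disjoint_left.1 (hfd u ((hY b hb).1 hu) u' ((hY b' (hb'.trans hb)).1 hu') hne)
      hus hus'
  obtain ⟨b, hb, x', F', D, hfut, hFF, hFcard, hDZ, hD, hfew⟩ :=
    Pool.Agent.LibAA59.a4 hS Z acc hZcard hcert x F Reg gr Γ (fun g : ℕ × ℕ => 2 ^ g.2)
      (fun g hg => by convert hN g hg) (R := R) (B := B) (by rw [hB]; positivity) hΓB
  have hfew' : ∀ g ∈ Γ, 2 ^ R * (Z.filter fun z => gr z = g ∧ z ∉ D ∧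
      ¬ ∀ v, Fut x' F' (Reg b) v → acc z v).card ≤ 2 ^ g.2 := fun g hg => by
    convert hfew g hg
  have hYI : Y b ⊆ I := (hY b hb).1
  have hRegI : ∀ b' < B, Reg b' ⊆ I.biUnion fib := by
    intro b' hb' s hs
    rw [hReg] at hs
    obtain ⟨u, hu, hus⟩ := Finset.mem_biUnion.1 hs
    exact Finset.mem_biUnion.2 ⟨u, (hY b' hb').1 hu, hus⟩
  have hRegb : (Finset.range b).biUnion Reg ⊆ I.biUnion fib := by
    intro s hs
    obtain ⟨b', hb', h2⟩ := Finset.mem_biUnion.1 hs
    exact hRegI b' ((Finset.mem_range.1 hb').trans hb) h2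
  -- invisible codes
  have hDex : ∀ p ∈ (D : Set (ℕ × List Bool)), L0 ≤ ex p.1 p.2.length := fun p hp =>
    ((hZmem p).1 (hDZ (Finset.mem_coe.1 hp))).2.1
  have hinv : ∀ (e : ℕ) (z : List Bool) (v : S.X (n + 2 ^ n)), ex e z.length < L →
      (AccE (S.rich (wd W ((K ∪ D : Finset (ℕ × List Bool)) : Set (ℕ × List Bool))
        (n + 2 ^ n) v)) e z ↔
        AccE (S.rich (wd W (K : Set (ℕ × List Bool)) (n + 2 ^ n) v)) e z) := by
    intro e z v hez
    refine accE_wd_congr fun s hs => ?_
    rw [Finset.coe_union, mem_codes_union]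
    constructor
    · rintro (h1 | h1)
      · exact h1
      · exfalso
        have h2 := codes_len hDex h1
        have h4 : 2 ^ (ex e z.length + 1) ≤ 2 ^ (L0 + 1) ^ 2 := by
          apply Nat.pow_le_pow_right (by norm_num)
          have h6 : L ≤ (L0 + 1) ^ 2 := by
            rw [hLL0]
            exact Nat.pow_le_pow_left (Nat.le_succ _) 2
          omega
        omega
    · exact Or.inl
  -- old additions
  have hold : ∀ v : S.X (n + 2 ^ n), Fut x' F' (Reg b) v → Fut x F (I.biUnion fib) v := by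
    intro v hv
    exact (hfut.mono subset_rfl hRegb).trans (hv.mono subset_rfl (hRegI b hb)) hFF
  refine ⟨K ∪ D, x', F', Y b, ?_, (hY b hb).2.ge, ?_⟩
  · refine ⟨?_, ?_, ?_, ?_, ?_, ?_, ?_⟩
    · intro p hp
      rcases Finset.mem_union.1 hp with h1 | h1
      · obtain ⟨h2, h3⟩ := h.K_lay p h1
        exact ⟨h2, h3.trans_le hL0L⟩
      · obtain ⟨-, h2, h3⟩ := (hZmem p).1 (hDZ h1)
        exact ⟨hnL0.trans h2, h3⟩
    · exact h.sub.trans hfut.1
    · intro s hs
      rcases hfut.2.1 hs with h1 | h1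
      · exact h.reg s h1
      · right
        obtain ⟨u, hu, hus⟩ := Finset.mem_biUnion.1 (hRegb (Finset.mem_coe.1 h1))
        exact (fib_head (h.I_str u hu).2 hus).1
    · intro u hu
      exact h.I_str u (hYI hu)
    · intro u hu s hs hsx
      rcases hfut.2.1 hsx with h1 | h1
      · exact h.free u (hYI hu) s hs h1
      · obtain ⟨b', hb', h2⟩ := Finset.mem_biUnion.1 (Finset.mem_coe.1 h1)
        have h3 := hdis b hb b' (Finset.mem_range.1 hb')
        refine Finset.disjoint_left.1 h3 ?_ h2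
        exact Finset.mem_biUnion.2 ⟨u, hu, hs⟩
    · intro p hp v hv
      have hpL : ex p.1 p.2.length < L := by
        rcases Finset.mem_union.1 hp with h1 | h1
        · exact (h.K_lay p h1).2.trans_le hL0L
        · exact ((hZmem p).1 (hDZ h1)).2.2
      rw [hinv p.1 p.2 _ hpL]
      rcases Finset.mem_union.1 hp with h1 | h1
      · exact h.sound p h1 v (hold v hv)
      · exact hD p h1 v hv
    · intro e he m hm1 hm2
      by_cases hcase : ex e m < L0
      · refine le_trans (Nat.mul_le_mul_left _ ?_) (h.few e he m hm1 hcase)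
        apply Pool.Agent.LibAV75.B2_cnt_mono
        rintro z hz ⟨h1, h2⟩
        refine ⟨fun h3 => h1 (Finset.mem_union_left _ h3), fun h3 => h2 ?_⟩
        intro v hv
        rw [hinv e z _ (by rw [hz]; exact hm2)]
        exact h3 v (hold v hv)
      · push Not at hcase
        have hmL : m < L := (le_ex e m).trans hm2
        have h1 := hfew' (e, m) (by
          rw [hΓ, Finset.mem_product, Finset.mem_range, Finset.mem_range]
          exact ⟨he, hmL⟩)
        refine le_trans (Nat.mul_le_mul_left _ ?_) h1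
        refine Pool.Agent.LibAV75.B2_cnt_le _ (fun z => (e, z))
          (fun a b hab => (Prod.mk.injEq _ _ _ _ ▸ hab).2) ?_
        rintro z hz ⟨h2, h3⟩
        rw [Finset.mem_filter]
        refine ⟨(hZmem _).2 ⟨he, ?_, ?_⟩, ?_, ?_, ?_⟩
        · show L0 ≤ ex e z.length
          rw [hz]; exact hcase
        · show ex e z.length < L
          rw [hz]; exact hm2
        · show (e, z.length) = (e, m)
          rw [hz]
        · exact fun h4 => h2 (Finset.mem_union_right _ h4)
        · intro h4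
          apply h3
          intro v hv
          rw [hinv e z _ (by rw [hz]; exact hm2)]
          exact h4 v hv
  · refine hFcard.trans ?_
    unfold fb
    rw [hB]

end Pool.Agent.LibAA75
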