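import Pool.Agent.LibAA75.B2

/-!
Row B3: all layers of a stage.
-/

namespace Pool.Agent.LibAA75

open Filter Function Pool.Agent.LibNexp Pool.Agent.LibBHN Pool.Agent.LibAL48
open Pool.Agent.LibAV75 (ex AccE code codes fib lay WL orc orc_iff err prog le_ex length_code
  code_head code_injective code_far lay_mono lay_sq mem_fib card_fib fib_disjoint fib_head Old)
open Pool.Agent.LibAA59 (SysA Tab Same Fut Cert Sim Dead MM KK gb)

variable {S : SysA}

theorem fb_mono {E c L L' f f' : ℕ} (h : L ≤ L') (hf : f ≤ f') : fb E c L f ≤ fb E c L' f' := by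
  have h1 : 2 ^ L ≤ 2 ^ L' := Nat.pow_le_pow_right (by norm_num) h
  unfold fb gb MM KK
  gcongr

/-- PLAN. As `LibAV75.b3` (LibAV75/B3.lean, proved; the proof is the same). Induction on the number
`d ≤ D` of layers: a state `LState n E R W d K x F I` with `2 ^ (n - 1 - d * (R + β)) ≤ I.card` and
`F.card ≤ (fb E (R + β) (lay n D))^[d] 0`. Start: `K = F = ∅`, `x := W (n + 2 ^ n)`, `I` = all strings of length
`n` starting with `true`; `free` by `hold`: the strings of `fib u` start with `true` and have length
`n + 2 ^ n` (`fib_head`), those of `ps W` starting with `true` are shorter (`Old`; `mem_ps_len`; a code does not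
start with `true`: `code_no_head`). Step: `b2` and `fb_mono`, `Function.iterate_succ_apply'`. -/
theorem b3 (hS : Sim S) {n E R β D : ℕ} (W : S.W) (hn : 1 ≤ n) (hold : Old n (ps W))
    (hβ : E * lay n D ≤ 2 ^ β) (hD : D * (R + β) + 1 ≤ n) :
    ∃ (K : Finset (ℕ × List Bool)) (x : S.X (n + 2 ^ n)) (F I : Finset (List Bool)),
      LState n E R W D K x F I ∧ 2 ^ (n - 1 - D * (R + β)) ≤ I.card ∧
      F.card ≤ (fb E (R + β) (lay n D))^[D] 0 := by
  have key : ∀ d, d ≤ D → ∃ (K : Finset (ℕ × List Bool)) (x : S.X (n + 2 ^ n))
      (F I : Finset (List Bool)), LState n E R W d K x F I ∧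
      2 ^ (n - 1 - d * (R + β)) ≤ I.card ∧ F.card ≤ (fb E (R + β) (lay n D))^[d] 0 := by
    intro d
    induction d with
    | zero =>
      intro _
      refine ⟨∅, W (n + 2 ^ n), ∅, (strs (n - 1)).image fun z => true :: z, ?_, ?_, ?_⟩
      · refine ⟨?_, subset_rfl, fun s hs => Or.inl hs, ?_, ?_, ?_, ?_⟩
        · intro p hp
          simp at hp
        · intro u hu
          rw [Finset.mem_image] at hu
          obtain ⟨z, hz, rfl⟩ := hu
          rw [mem_strs] at hz
          refine ⟨?_, ?_⟩
          · rw [List.length_cons, hz]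
            omega
          · exact ⟨z, rfl⟩
        · intro u hu s hs hT
          rw [Finset.mem_image] at hu
          obtain ⟨z, hz, rfl⟩ := hu
          rw [mem_strs] at hz
          have hl : (true :: z).length = n := by
            rw [List.length_cons, hz]
            omega
          obtain ⟨h1, h2⟩ := fib_head (⟨z, rfl⟩ : [true] <+: true :: z) hs
          rw [hl] at h2
          have h3 : s ∈ ps W := (mem_ps_len h2).2 hT
          rcases hold s h3 with ⟨-, h4⟩ | ⟨e, z', h4, -⟩
          · omega
          · rw [h4] at h1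
            exact code_no_head h1
        · intro p hp
          simp at hp
        · intro e _ m h1 h2
          have h3 : lay n 0 = n := by simp [lay]
          omega
      · rw [Finset.card_image_of_injective _ (List.cons_injective), card_strs]
        simp
      · simp
    | succ d ih =>
      intro hd
      obtain ⟨K, x, F, I, h1, h2, h3⟩ := ih (by omega)
      have h4 : (d + 1) * (R + β) ≤ D * (R + β) := Nat.mul_le_mul_right _ hd
      have h5 : (d + 1) * (R + β) = d * (R + β) + (R + β) := by ring
      have h6 : n - 1 - (d + 1) * (R + β) + (R + β) = n - 1 - d * (R + β) := by omega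
      have hl : lay n (d + 1) ≤ lay n D := lay_mono hn hd
      obtain ⟨K', x', F', I', g1, g2, g3⟩ := b2 hS (β := β) (y := n - 1 - (d + 1) * (R + β)) hn h1
        ((Nat.mul_le_mul_left E hl).trans hβ) (by rw [h6]; exact h2)
      refine ⟨K', x', F', I', g1, g2, ?_⟩
      rw [Function.iterate_succ_apply']
      exact g3.trans (fb_mono hl h3)
  exact key D le_rfl

end Pool.Agent.LibAA75
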