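import Pool.Agent.LibAA75.B1

/-!
Row B4: exact codes.
-/

namespace Pool.Agent.LibAA75

open Filter Function Pool.Agent.LibNexp Pool.Agent.LibBHN Pool.Agent.LibAL48
open Pool.Agent.LibAV75 (ex AccE code codes fib lay WL orc orc_iff err prog le_ex length_code
  code_head code_injective code_far lay_mono lay_sq mem_fib card_fib fib_disjoint fib_head Old)
open Pool.Agent.LibAA59 (SysA Tab Same Fut Cert Sim Dead MM KK gb)

variable {S : SysA}

/-- PLAN. As `LibAV75.b4` (LibAV75/B4.lean, proved). Induction on `b`. From `b` to `b + 1`: with `K` for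
`b` put `K' := K ∪ {(e, z) | a ≤ b ∧ ex e |z| = b ∧ ¬ AccE (S.rich (cw V K)) e z}`. The new codes are
invisible to all statements of exponent `≤ b`: `accE_congr` and `cw_congr` (the codes of the new pairs are longer
than `2 ^ (b + 1)`: `code_far`; `mem_codes_union`). -/
theorem b4 (V : S.W) (a b : ℕ) : ∃ K : Set (ℕ × List Bool),
    (∀ p ∈ K, a ≤ ex p.1 p.2.length ∧ ex p.1 p.2.length < b) ∧
    ∀ (e : ℕ) (z : List Bool), a ≤ ex e z.length → ex e z.length < b →
      ((e, z) ∈ K ↔ ¬ AccE (S.rich (cw V K)) e z) := by
  induction b with
  | zero =>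
    refine ⟨∅, ?_, ?_⟩
    · intro p hp
      exact absurd hp (Set.notMem_empty p)
    · intro e z _ h
      omega
  | succ b ih =>
    obtain ⟨K, hK1, hK2⟩ := ih
    set N : Set (ℕ × List Bool) := {p | a ≤ b ∧ ex p.1 p.2.length = b ∧
      ¬ AccE (S.rich (cw V K)) p.1 p.2} with hN
    have hcongr : ∀ (e : ℕ) (z : List Bool), ex e z.length ≤ b →
        (AccE (S.rich (cw V (K ∪ N))) e z ↔ AccE (S.rich (cw V K)) e z) := by
      intro e z he
      refine accE_congr fun M hM => cw_congr ?_
      intro s hs
      rw [mem_codes_union]
      refine or_iff_left ?_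
      rintro ⟨e', z', h1, h2⟩
      have h3 : ex e' z'.length = b := h1.2.1
      have h4 := Pool.Agent.LibAV75.code_far (e := e) (m := z.length) (e' := e') (z' := z')
        (by omega)
      rw [← h2] at h4
      omega
    refine ⟨K ∪ N, ?_, ?_⟩
    · rintro p (hp | hp)
      · have := hK1 p hp
        omega
      · have h1 : ex p.1 p.2.length = b := hp.2.1
        have h2 : a ≤ b := hp.1
        omega
    · intro e z h1 h2
      rw [hcongr e z (by omega)]
      rcases Nat.lt_or_ge (ex e z.length) b with h3 | h3
      · rw [← hK2 e z h1 h3]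
        constructor
        · rintro (h | h)
          · exact h
          · have h4 : ex e z.length = b := h.2.1
            omega
        · intro h
          exact Or.inl h
      · have h4 : ex e z.length = b := by omega
        constructor
        · rintro (h | h)
          · have h5 := (hK1 _ h).2
            simp only at h5
            omega
          · exact h.2.2
        · intro h
          exact Or.inr ⟨by omega, h4, h⟩

end Pool.Agent.LibAA75
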