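import Pool.Agent.LibAA75.B1

/-!
Definitions for the stages (no sorries in this file).
-/

namespace Pool.Agent.LibAA75

open Filter Function Pool.Agent.LibNexp Pool.Agent.LibBHN Pool.Agent.LibAL48
open Pool.Agent.LibAV75 (ex AccE code codes fib lay WL orc orc_iff err prog le_ex length_code
  code_head code_injective code_far lay_mono lay_sq mem_fib card_fib fib_disjoint fib_head Old)
open Pool.Agent.LibAA59 (SysA Tab Same Fut Cert Sim Dead MM KK gb)

variable {S : SysA}

/-- The property `G` can be forced at stage `n` by additions about `2 ^ y` free strings. -/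
def Forced (n y fbd : ℕ) (G : S.W → Prop) : Prop :=
  ∀ (V : S.W) (F I : Finset (List Bool)),
    (∀ u ∈ I, u.length = n ∧ [true] <+: u) → 2 ^ y ≤ I.card → F.card ≤ fbd →
    (∀ u ∈ I, ∀ s ∈ fib u, s ∉ Tab (V (n + 2 ^ n))) →
    ∃ x, Fut (V (n + 2 ^ n)) F (I.biUnion fib) x ∧ G (update V (n + 2 ^ n) x)

/-- The property `G` depends only on the levels below `M`. -/
def Local (M : ℕ) (G : S.W → Prop) : Prop :=
  ∀ W W' : S.W, (∀ N < M, W N = W' N) → G W → G W'

/-- What one stage does. -/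
structure Stage (n n' E R D : ℕ) (W W' : S.W) : Prop where
  keep : ∀ N < n + 2 ^ n, W' N = W N
  sub : ps W ⊆ ps W'
  new : ∀ s ∈ ps W', s ∈ ps W ∨ ([true] <+: s ∧ s.length = n + 2 ^ n) ∨
    ∃ e z, s = code e z ∧ n ≤ ex e z.length ∧ ex e z.length < n'
  sound : ∀ (e : ℕ) (z : List Bool), n ≤ ex e z.length → ex e z.length < n' →
    code e z ∈ ps W' → ¬ AccE (S.rich W') e z
  exact : ∀ (e : ℕ) (z : List Bool), lay n D ≤ ex e z.length → ex e z.length < n' →
    ¬ AccE (S.rich W') e z → code e z ∈ ps W'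
  few : ∀ e < E, ∀ m, n ≤ ex e m → ex e m < lay n D →
    2 ^ R * cnt m (fun z => ¬ AccE (S.rich W') e z ∧ code e z ∉ ps W') ≤ 2 ^ m

end Pool.Agent.LibAA75
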