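import Pool.Agent.LibAA75.B3
import Pool.Agent.LibAA75.B4
import Pool.Agent.LibAA75.B5D

/-!
Row B5: one stage.
-/

namespace Pool.Agent.LibAA75

open Filter Function Pool.Agent.LibNexp Pool.Agent.LibBHN Pool.Agent.LibAL48
open Pool.Agent.LibAV75 (ex AccE code codes fib lay WL orc orc_iff err prog le_ex length_code
  code_head code_injective code_far lay_mono lay_sq mem_fib card_fib fib_disjoint fib_head Old)
open Pool.Agent.LibAA59 (SysA Tab Same Fut Cert Sim Dead MM KK gb)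

variable {S : SysA}

private theorem b5_cnt_mono {m : ℕ} {P Q : List Bool → Prop}
    (h : ∀ z : List Bool, z.length = m → P z → Q z) : cnt m P ≤ cnt m Q := by
  classical
  unfold cnt
  refine Finset.card_le_card fun t ht => ?_
  rw [Finset.mem_filter] at ht ⊢
  exact ⟨ht.1, h _ (length_bits m t) ht.2⟩

/-- PLAN. As `LibAV75.b5` (LibAV75/B5.lean, proved: read it). Put `N₀ := n + 2 ^ n`. `b3` gives `K`, `x`,
`F`, `I`. `hG` for `V := wd W K N₀ x` (`V N₀ = x`: `wd_self`; `free`) gives `x'` with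
`Fut x F (I.biUnion fib) x'` and `G V₁`, `V₁ := wd W K N₀ x'` (`update V N₀ x' = V₁`: `Function.update_idem`).
`b4 V₁ (lay n D) n'` gives `K₂`; `W' := cw V₁ K₂`.
* `ps W'`: `mem_ps_cw`; `ps V₁`: `mem_ps_wd_eq`, `mem_ps_wd_ne`. A string of length `N₀` in `ps W'` is in
  `Tab x'` or a code of `K₂` (too long: `codes_len`, `wit_le`); `Tab x'`: `Fut`, `LState.sub`,
  `LState.reg`, `mem_ps_len`.
* `keep`: for `N < N₀`: `cw_low` for `K₂`, `wd_ne`, `cw_low` for `K` (`a := n`; `wit_le`,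
  `n ≤ lay n D`).
* `G W'`: `hL`, `cw_low` (`a := lay n D`).
* For `ex e |z| < lay n D`: `AccE (S.rich W') e z ↔ AccE (S.rich V₁) e z` (`accE_congr`, `cw_none`,
  `code_far` or `cw_low`).
* `code e z ∈ ps W'` with `n ≤ ex e |z|`: not in `ps W` (`Old`, `code_injective`, `code_no_head`), so
  `(e, z) ∈ K` or `(e, z) ∈ K₂` (its length is not `N₀`: `length_code`, `wit_le`).
* `few`: monotonicity of `cnt` (private lemma of the template). -/
theorem b5 (hS : Sim S) {n n' E R β D y : ℕ} {W : S.W} {G : S.W → Prop} (hn : 1 ≤ n)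
    (hold : Old n (ps W)) (hβ : E * lay n D ≤ 2 ^ β) (hy : y + D * (R + β) + 1 ≤ n)
    (hn' : lay n D ≤ n') (hG : Forced n y ((fb E (R + β) (lay n D))^[D] 0) G)
    (hL : Local (2 ^ (lay n D + 1) ^ 2) G) :
    ∃ W' : S.W, Stage n n' E R D W W' ∧ G W' := by
  obtain ⟨K, x, F, I, hSt, hI, hF⟩ := b3 (R := R) hS W hn hold hβ (by omega)
  have hyI : 2 ^ y ≤ I.card :=
    (Nat.pow_le_pow_right (by norm_num) (by omega)).trans hI
  obtain ⟨x', hx', hGV⟩ := hG (wd W (K : Set (ℕ × List Bool)) (n + 2 ^ n) x) F I hSt.I_str hyI hF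
    (fun u hu s hs => by rw [wd_self]; exact hSt.free u hu s hs)
  rw [wd_self] at hx'
  have hV1 : update (wd W (K : Set (ℕ × List Bool)) (n + 2 ^ n) x) (n + 2 ^ n) x' =
      wd W (K : Set (ℕ × List Bool)) (n + 2 ^ n) x' := by
    unfold wd
    exact update_idem _ _ _
  rw [hV1] at hGV
  obtain ⟨V₁, hV₁⟩ : ∃ V₁ : S.W, V₁ = wd W (K : Set (ℕ × List Bool)) (n + 2 ^ n) x' := ⟨_, rfl⟩
  rw [← hV₁] at hGV
  obtain ⟨K₂, hK₂, hK₂'⟩ := b4 V₁ (lay n D) n'
  have hlay : n ≤ lay n D := by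
    have h1 := lay_mono hn (Nat.zero_le D)
    have h2 : lay n 0 = n := by simp [lay]
    rwa [h2] at h1
  have hKlen : ∀ s ∈ codes (K : Set (ℕ × List Bool)), s.length ≠ n + 2 ^ n := by
    intro s hs h
    have h1 := codes_len (a := n) (fun p hp => (hSt.K_lay p (Finset.mem_coe.1 hp)).1) hs
    have h2 := wit_le n
    omega
  have hKlow : ∀ p ∈ (K : Set (ℕ × List Bool)), n ≤ ex p.1 p.2.length :=
    fun p hp => (hSt.K_lay p (Finset.mem_coe.1 hp)).1
  have hK₂low : ∀ p ∈ K₂, lay n D ≤ ex p.1 p.2.length := fun p hp => (hK₂ p hp).1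
  -- the strings of the world `V₁`
  have hps : ∀ s ∈ ps V₁, s ∈ ps W ∨ s ∈ codes (K : Set (ℕ × List Bool)) ∨
      ([true] <+: s ∧ s.length = n + 2 ^ n) := by
    intro s hs
    rw [hV₁] at hs
    by_cases hl : s.length = n + 2 ^ n
    · rw [mem_ps_wd_eq hl] at hs
      rcases hx'.2.1 hs with h1 | h1
      · rcases hSt.reg s h1 with h2 | h2
        · exact Or.inl ((mem_ps_len hl).2 h2)
        · exact Or.inr (Or.inr ⟨h2, hl⟩)
      · obtain ⟨u, hu, hsu⟩ := Finset.mem_biUnion.1 (Finset.mem_coe.1 h1)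
        exact Or.inr (Or.inr ⟨(fib_head (hSt.I_str u hu).2 hsu).1, hl⟩)
    · rw [mem_ps_wd_ne hl] at hs
      rcases hs with h1 | h1
      · exact Or.inl h1
      · exact Or.inr (Or.inl h1)
  have hsub : ps W ⊆ ps V₁ := by
    intro s hs
    rw [hV₁]
    by_cases hl : s.length = n + 2 ^ n
    · rw [mem_ps_wd_eq hl]
      exact hx'.1 (hSt.sub ((mem_ps_len hl).1 hs))
    · rw [mem_ps_wd_ne hl]
      exact Or.inl hs
  have hKsub : codes (K : Set (ℕ × List Bool)) ⊆ ps V₁ := by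
    intro s hs
    rw [hV₁, mem_ps_wd_ne (hKlen s hs)]
    exact Or.inr hs
  -- statements of small exponent do not see the codes of `K₂`
  have hsee : ∀ (e : ℕ) (z : List Bool), ex e z.length < lay n D →
      (AccE (S.rich (cw V₁ K₂)) e z ↔ AccE (S.rich V₁) e z) := by
    intro e z hez
    refine accE_congr fun N hN => cw_low hK₂low ?_
    have h1 : 2 ^ (ex e z.length + 1) ≤ 2 ^ (lay n D + 1) ^ 2 :=
      Nat.pow_le_pow_right (by norm_num) (by nlinarith)
    omega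
  have hmemK : ∀ (e : ℕ) (z : List Bool), n ≤ ex e z.length → code e z ∈ ps (cw V₁ K₂) →
      (e, z) ∈ K ∨ (e, z) ∈ K₂ := by
    intro e z hez hmem
    rcases mem_ps_cw.1 hmem with h | ⟨e', z', hK, h⟩
    · rcases hps _ h with h | ⟨e', z', hK, h⟩ | h
      · rcases hold _ h with ⟨h1, -⟩ | ⟨e', z', h1, h2⟩
        · exact (code_no_head h1).elim
        · obtain ⟨rfl, rfl⟩ := code_injective h1
          omega
      · obtain ⟨rfl, rfl⟩ := code_injective h
        exact Or.inl (Finset.mem_coe.1 hK)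
      · exact (code_no_head h.1).elim
    · obtain ⟨rfl, rfl⟩ := code_injective h
      exact Or.inr hK
  refine ⟨cw V₁ K₂, ⟨?_, ?_, ?_, ?_, ?_, ?_⟩, ?_⟩
  · intro N hN
    have h1 := wit_le n
    have h2 : 2 ^ (n + 1) ^ 2 ≤ 2 ^ (lay n D + 1) ^ 2 :=
      Nat.pow_le_pow_right (by norm_num) (Nat.pow_le_pow_left (Nat.succ_le_succ hlay) 2)
    rw [cw_low hK₂low (by omega), hV₁, wd_ne _ _ _ (by omega), cw_low hKlow (by omega)]
  · exact fun s hs => mem_ps_cw.2 (Or.inl (hsub hs))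
  · intro s hs
    rcases mem_ps_cw.1 hs with h | ⟨e, z, hK, h⟩
    · rcases hps s h with h | ⟨e, z, hK, h⟩ | h
      · exact Or.inl h
      · have h1 := hSt.K_lay _ (Finset.mem_coe.1 hK)
        exact Or.inr (Or.inr ⟨e, z, h, h1.1, h1.2.trans_le hn'⟩)
      · exact Or.inr (Or.inl h)
    · have h1 := hK₂ _ hK
      exact Or.inr (Or.inr ⟨e, z, h, hlay.trans h1.1, h1.2⟩)
  · intro e z h1 h2 hmem
    rcases hmemK e z h1 hmem with hK | hK
    · have h3 := hSt.K_lay _ hK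
      rw [hsee e z h3.2, hV₁]
      exact hSt.sound _ hK x' hx'
    · have h3 := hK₂ _ hK
      exact (hK₂' e z h3.1 h3.2).1 hK
  · intro e z h1 h2 hacc
    exact mem_ps_cw.2 (Or.inr ⟨e, z, (hK₂' e z h1 h2).2 hacc, rfl⟩)
  · intro e he m h1 h2
    refine le_trans (Nat.mul_le_mul_left _ (b5_cnt_mono fun z hz hzz => ?_))
      (hSt.few e he m h1 h2)
    obtain ⟨hz1, hz2⟩ := hzz
    refine ⟨fun hK => hz2 (mem_ps_cw.2 (Or.inl (hKsub ⟨e, z, hK, rfl⟩))), fun hall => hz1 ?_⟩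
    rw [hsee e z (by rw [hz]; exact h2), hV₁]
    exact hall x' hx'
  · exact hL V₁ _ (fun N hN => (cw_low hK₂low hN.le).symm) hGV

end Pool.Agent.LibAA75
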