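import Pool.Agent.LibAA75.B5

/-!
Row B6: the limit world.
-/

namespace Pool.Agent.LibAA75

open Filter Function Pool.Agent.LibNexp Pool.Agent.LibBHN Pool.Agent.LibAL48
open Pool.Agent.LibAV75 (ex AccE code codes fib lay WL orc orc_iff err prog le_ex length_code
  code_head code_injective code_far lay_mono lay_sq mem_fib card_fib fib_disjoint fib_head Old)
open Pool.Agent.LibAA59 (SysA Tab Same Fut Cert Sim Dead MM KK gb)

variable {S : SysA}

private theorem b6_cnt_mono {m : ℕ} {P Q : List Bool → Prop}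
    (h : ∀ z : List Bool, z.length = m → P z → Q z) : cnt m P ≤ cnt m Q := by
  classical
  unfold cnt
  refine Finset.card_le_card fun t ht => ?_
  rw [Finset.mem_filter] at ht ⊢
  exact ⟨ht.1, h _ (length_bits m t) ht.2⟩

private theorem b6_old {a b : ℕ} (h : a ≤ b) {A : Set (List Bool)} (hA : Old a A) : Old b A := by
  intro s hs
  rcases hA s hs with ⟨h1, h2⟩ | ⟨e, z, h1, h2⟩
  · have h3 : 2 ^ a ≤ 2 ^ b := Nat.pow_le_pow_right (by norm_num) h
    exact Or.inl ⟨h1, by omega⟩
  · exact Or.inr ⟨e, z, h1, h2.trans_le h⟩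

/-- PLAN. As `LibAV75.b6` (LibAV75/B6.lean, proved: read it; the recursion is the same, the limit is taken
level by level). Start: the world `W₀ N := std S N fun _ => false`; `ps W₀ = ∅` (`std_spec`), so
`Old (n 0) (ps W₀)`. `b5` gives worlds `W i` with `Old (n i) (ps (W i))`,
`Stage (n i) (n (i + 1)) ... (W i) (W (i + 1))` and `G i (W (i + 1))`. The limit: `V N := W (N + 1) N`.
* For all `i` and `N < n i + 2 ^ n i`: `V N = W i N` (`keep`: `W j N` is constant for `j ≥ i`; `n` is strictly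
  increasing, `N < n (N + 1)`, so compare `W i N` and `W (N + 1) N` with `W (max i (N + 1)) N`).
* `ps (W i) ⊆ ps V` (`sub`; `s ∈ ps V ↔ s ∈ ps (W j)` for `|s| < n j`: `mem_ps_of`); strings of `ps V` not in
  `ps (W i)` start with `true` and have length `≥ n i + 2 ^ n i`, or are codes with exponent `≥ n i` (as
  `hlate`, `hlateA` in the template).
* `AccE (S.rich V) e z ↔ AccE (S.rich (W i)) e z` for `ex e |z| < n i` (`accE_congr`: levels
  `< 2 ^ (ex e |z| + 1) ≤ 2 ^ n i`).
* `G i V`: `hL` (`2 ^ (lay (n i) (D i) + 1) ^ 2 ≤ 2 ^ n (i + 1)`). -/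
theorem b6 (hS : Sim S) {n E R D β y : ℕ → ℕ} {G : ℕ → S.W → Prop} (hn : ∀ i, 1 ≤ n i)
    (hnn : ∀ i, (lay (n i) (D i) + 1) ^ 2 ≤ n (i + 1))
    (hβ : ∀ i, E i * lay (n i) (D i) ≤ 2 ^ β i) (hy : ∀ i, y i + D i * (R i + β i) + 1 ≤ n i)
    (hG : ∀ i, Forced (n i) (y i) ((fb (E i) (R i + β i) (lay (n i) (D i)))^[D i] 0) (G i))
    (hL : ∀ i, Local (2 ^ (lay (n i) (D i) + 1) ^ 2) (G i)) :
    ∃ W : S.W, (∀ l, false :: l ∈ ps W → ∃ e z, false :: l = code e z) ∧
      (∀ (e : ℕ) (z : List Bool), code e z ∈ ps W → ¬ AccE (S.rich W) e z) ∧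
      (∀ (i e : ℕ) (z : List Bool), lay (n i) (D i) ≤ ex e z.length →
        ex e z.length < n (i + 1) → ¬ AccE (S.rich W) e z → code e z ∈ ps W) ∧
      (∀ i, ∀ e < E i, ∀ m, n i ≤ ex e m → ex e m < lay (n i) (D i) →
        2 ^ R i * cnt m (fun z => ¬ AccE (S.rich W) e z ∧ code e z ∉ ps W) ≤ 2 ^ m) ∧
      ∀ i, G i W := by
  have hlay : ∀ i, n i ≤ lay (n i) (D i) := by
    intro i
    have h1 := lay_mono (hn i) (Nat.zero_le (D i))
    have h2 : lay (n i) 0 = n i := by simp [lay]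
    rwa [h2] at h1
  have hlay' : ∀ i, lay (n i) (D i) < n (i + 1) := by
    intro i
    have h1 := hnn i
    nlinarith
  have hlt : ∀ i, n i < n (i + 1) := fun i => (hlay i).trans_lt (hlay' i)
  have hmono : StrictMono n := strictMono_nat_of_lt_succ hlt
  -- one stage
  have hstep : ∀ (i : ℕ) (A : {A : S.W // Old (n i) (ps A)}),
      ∃ A' : {A : S.W // Old (n (i + 1)) (ps A)},
        Stage (n i) (n (i + 1)) (E i) (R i) (D i) A.1 A'.1 ∧ G i A'.1 := by
    intro i A
    obtain ⟨A', h1, h2⟩ := b5 hS (hn i) A.2 (hβ i) (hy i) (hlay' i).le (hG i) (hL i)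
    refine ⟨⟨A', fun s hs => ?_⟩, h1, h2⟩
    rcases h1.new s hs with h0 | ⟨h3, h4⟩ | ⟨e, z, h3, -, h5⟩
    · exact b6_old (hlt i).le A.2 s h0
    · have h6 : 2 ^ n i ≤ 2 ^ n (i + 1) := Nat.pow_le_pow_right (by norm_num) (hlt i).le
      have h7 := hlt i
      exact Or.inl ⟨h3, by omega⟩
    · exact Or.inr ⟨e, z, h3, h5⟩
  choose st hst1 hst2 using hstep
  have hps0 : ∀ s, s ∉ ps (fun N => std S N fun _ => false : S.W) := by
    intro s hs
    rw [mem_ps_len rfl] at hs
    have h1 : S.pl s.length (std S s.length fun _ => false) s = true := hs.2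
    rw [std_spec _ _ rfl] at h1
    exact Bool.false_ne_true h1
  have h0 : Old (n 0) (ps (fun N => std S N fun _ => false : S.W)) :=
    fun s hs => absurd hs (hps0 s)
  set T : ∀ i, {A : S.W // Old (n i) (ps A)} :=
    fun i => Nat.rec ⟨_, h0⟩ (fun i prev => st i prev) i with hTdef
  have hT1 : ∀ i, T (i + 1) = st i (T i) := fun i => rfl
  have hT0 : (T 0).1 = (fun N => std S N fun _ => false : S.W) := rfl
  have hStage : ∀ i, Stage (n i) (n (i + 1)) (E i) (R i) (D i) (T i).1 (T (i + 1)).1 := by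
    intro i
    rw [hT1]
    exact hst1 i (T i)
  have hGi : ∀ i, G i (T (i + 1)).1 := by
    intro i
    rw [hT1]
    exact hst2 i (T i)
  have hkeep : ∀ i d N, N < n i + 2 ^ n i → (T (i + d)).1 N = (T i).1 N := by
    intro i d
    induction d with
    | zero => exact fun N _ => rfl
    | succ d ih =>
      intro N hN
      rw [← ih N hN]
      refine (hStage (i + d)).keep N (hN.trans_le ?_)
      have h2 : n i ≤ n (i + d) := hmono.monotone (Nat.le_add_right i d)
      have h5 : 2 ^ n i ≤ 2 ^ n (i + d) := Nat.pow_le_pow_right (by norm_num) h2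
      omega
  obtain ⟨V, hVdef⟩ : ∃ V : S.W, ∀ N, V N = (T (N + 1)).1 N := ⟨fun N => (T (N + 1)).1 N, fun _ => rfl⟩
  have hVN : ∀ N, N < n (N + 1) + 2 ^ n (N + 1) := by
    intro N
    have h1 : N + 1 ≤ n (N + 1) := hmono.id_le (N + 1)
    exact (Nat.lt_succ_self N).trans_le (h1.trans (Nat.le_add_right _ _))
  have hV : ∀ i N, N < n i + 2 ^ n i → V N = (T i).1 N := by
    intro i N hN
    rw [hVdef]
    rcases Nat.le_total i (N + 1) with h | h
    · obtain ⟨d, hd⟩ := Nat.exists_eq_add_of_le h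
      rw [hd]
      exact hkeep i d N hN
    · obtain ⟨d, rfl⟩ := Nat.exists_eq_add_of_le h
      exact (hkeep (N + 1) d N (hVN N)).symm
  have hTmono : ∀ i d, ps (T i).1 ⊆ ps (T (i + d)).1 := by
    intro i d
    induction d with
    | zero => exact fun s hs => hs
    | succ d ih => exact ih.trans (hStage (i + d)).sub
  have hmemV : ∀ s : List Bool, s ∈ ps V ↔ s ∈ ps (T (s.length + 1)).1 :=
    fun s => mem_ps_of (hVdef s.length)
  have hsub : ∀ i, ps (T i).1 ⊆ ps V := by
    intro i s hs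
    have h1 := hTmono i (s.length + 1) hs
    have h2 : V s.length = (T (i + (s.length + 1))).1 s.length := by
      have h3 : i + (s.length + 1) ≤ n (i + (s.length + 1)) := hmono.id_le _
      have h4 : s.length < n (i + (s.length + 1)) := by omega
      exact hV (i + (s.length + 1)) s.length (h4.trans_le (Nat.le_add_right _ _))
    exact (mem_ps_of h2).2 h1
  -- the strings added later
  have hlate : ∀ i d, ∀ s ∈ ps (T (i + d)).1, s ∉ ps (T i).1 →
      ([true] <+: s ∧ n i + 2 ^ n i ≤ s.length) ∨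
        ∃ e z, s = code e z ∧ n i ≤ ex e z.length := by
    intro i d
    induction d with
    | zero => exact fun s hs hs' => absurd hs hs'
    | succ d ih =>
      intro s hs hs'
      have h2 : n i ≤ n (i + d) := hmono.monotone (Nat.le_add_right i d)
      rcases (hStage (i + d)).new s hs with h1 | ⟨h3, h4⟩ | ⟨e, z, h3, h4, -⟩
      · exact ih s h1 hs'
      · have h5 : 2 ^ n i ≤ 2 ^ n (i + d) := Nat.pow_le_pow_right (by norm_num) h2
        exact Or.inl ⟨h3, by omega⟩
      · exact Or.inr ⟨e, z, h3, h2.trans h4⟩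
  have hlateA : ∀ i, ∀ s ∈ ps V, s ∉ ps (T i).1 →
      ([true] <+: s ∧ n i + 2 ^ n i ≤ s.length) ∨
        ∃ e z, s = code e z ∧ n i ≤ ex e z.length := by
    intro i s hs hs'
    have hj := (hmemV s).1 hs
    obtain ⟨j, hjj⟩ : ∃ j, j = s.length + 1 := ⟨_, rfl⟩
    rw [← hjj] at hj
    rcases Nat.le_total i j with h | h
    · obtain ⟨d, rfl⟩ := Nat.exists_eq_add_of_le h
      exact hlate i d s hj hs'
    · obtain ⟨d, rfl⟩ := Nat.exists_eq_add_of_le h
      exact absurd (hTmono j d hj) hs'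
  -- visibility
  have hsee : ∀ (i e : ℕ) (z : List Bool), ex e z.length < n i →
      (AccE (S.rich V) e z ↔ AccE (S.rich (T i).1) e z) := by
    intro i e z hez
    refine accE_congr fun N hN => hV i N ?_
    have h3 : 2 ^ (ex e z.length + 1) ≤ 2 ^ n i := Nat.pow_le_pow_right (by norm_num) hez
    omega
  have hcode : ∀ (i e : ℕ) (z : List Bool), ex e z.length < n i → code e z ∈ ps V →
      code e z ∈ ps (T i).1 := by
    intro i e z hez h
    by_contra h1
    rcases hlateA i _ h h1 with ⟨h2, -⟩ | ⟨e', z', h2, h3⟩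
    · exact code_no_head h2
    · obtain ⟨rfl, rfl⟩ := code_injective h2
      omega
  refine ⟨V, ?_, ?_, ?_, ?_, ?_⟩
  · intro l hl
    have hj := (hmemV _).1 hl
    rcases (T ((false :: l).length + 1)).2 _ hj with ⟨⟨t, ht⟩, -⟩ | ⟨e, z, h1, -⟩
    · simp at ht
    · exact ⟨e, z, h1⟩
  · intro e z hmem
    have hex : ∃ j, ex e z.length < n j :=
      ⟨ex e z.length + 1, (Nat.lt_succ_self _).trans_le (hmono.id_le _)⟩
    classical
    obtain ⟨j, hj, hjmin⟩ : ∃ j, ex e z.length < n j ∧ ∀ i < j, ¬ ex e z.length < n i :=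
      ⟨Nat.find hex, Nat.find_spec hex, fun i hi => Nat.find_min hex hi⟩
    have h1 := hcode j e z hj hmem
    cases j with
    | zero =>
      rw [hT0] at h1
      exact absurd h1 (hps0 _)
    | succ i =>
      have h2 := not_lt.1 (hjmin i (Nat.lt_succ_self i))
      rw [hsee (i + 1) e z hj]
      exact (hStage i).sound e z h2 hj h1
  · intro i e z h1 h2 h3
    rw [hsee (i + 1) e z h2] at h3
    exact hsub (i + 1) ((hStage i).exact e z h1 h2 h3)
  · intro i e he m h1 h2
    refine le_trans (Nat.mul_le_mul_left _ (b6_cnt_mono fun z hz hzz => ?_))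
      ((hStage i).few e he m h1 h2)
    have h3 : ex e z.length < n (i + 1) := by
      rw [hz]
      exact h2.trans (hlay' i)
    rw [hsee (i + 1) e z h3] at hzz
    exact ⟨hzz.1, fun h => hzz.2 (hsub (i + 1) h)⟩
  · intro i
    refine hL i (T (i + 1)).1 V (fun N hN => (hV (i + 1) N ?_).symm) (hGi i)
    have h4 : 2 ^ (lay (n i) (D i) + 1) ^ 2 ≤ 2 ^ n (i + 1) :=
      Nat.pow_le_pow_right (by norm_num) (hnn i)
    omega

end Pool.Agent.LibAA75
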