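import Pool.Agent.LibAA59.A6
import Pool.Agent.LibAA59.A5
import Pool.Agent.LibAA59.A4
import Pool.Agent.LibAV75.B5
import Pool.Agent.LibAV75.B7

/-!
Worlds of a system with codes added to the plain oracle.
-/

namespace Pool.Agent.LibAA75

open Filter Function Pool.Agent.LibNexp Pool.Agent.LibBHN Pool.Agent.LibAL48
open Pool.Agent.LibAV75 (ex AccE code codes fib lay WL orc orc_iff err)
open Pool.Agent.LibAA59 (SysA Tab Same Fut Cert Sim)

variable {S : SysA}

/-- The plain oracle of a world as a set. -/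
def ps (W : S.W) : Set (List Bool) := {s | S.plain W s = true}

/-- Some world at a level with a given plain oracle. -/
noncomputable def std (S : SysA) (N : ℕ) (f : List Bool → Bool) : S.X N := (S.ex N f).choose

theorem std_spec (N : ℕ) (f : List Bool → Bool) {s : List Bool} (h : s.length = N) :
    S.pl N (std S N f) s = f s := (S.ex N f).choose_spec s h

open Classical in
/-- The world `W` with the codes of the pairs in `K` added to its plain oracle. -/
noncomputable def cw (W : S.W) (K : Set (ℕ × List Bool)) : S.W := fun N =>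
  if ∃ s ∈ codes K, s.length = N then
    std S N fun s => decide (s.length = N ∧ (s ∈ ps W ∨ s ∈ codes K))
  else W N

/-- The world `W` with the codes of `K` added and with level `N` replaced by `x`. -/
noncomputable def wd (W : S.W) (K : Set (ℕ × List Bool)) (N : ℕ) (x : S.X N) : S.W :=
  update (cw W K) N x

theorem mem_ps {W : S.W} {s : List Bool} : s ∈ ps W ↔ S.plain W s = true := Iff.rfl

theorem orc_ps (W : S.W) : orc (ps W) = S.plain W := by
  funext s
  rw [Bool.eq_iff_iff, orc_iff]
  exact Iff.rfl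

/-- The plain oracle at a level is given by the world at this level. -/
theorem mem_ps_of {W W' : S.W} {s : List Bool} (h : W s.length = W' s.length) :
    s ∈ ps W ↔ s ∈ ps W' := by
  rw [mem_ps, mem_ps, plain_agree h]

theorem mem_ps_len {W : S.W} {N : ℕ} {s : List Bool} (h : s.length = N) :
    s ∈ ps W ↔ s ∈ Tab (W N) := by
  subst h
  exact ⟨fun h => ⟨rfl, h⟩, fun h => h.2⟩

theorem cw_none {W : S.W} {K : Set (ℕ × List Bool)} {N : ℕ}
    (h : ∀ s ∈ codes K, s.length ≠ N) : cw W K N = W N := by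
  unfold cw
  rw [if_neg]
  rintro ⟨s, hs, h1⟩
  exact h s hs h1

theorem cw_congr {W : S.W} {K K' : Set (ℕ × List Bool)} {N : ℕ}
    (h : ∀ s : List Bool, s.length = N → (s ∈ codes K ↔ s ∈ codes K')) :
    cw W K N = cw W K' N := by
  classical
  have h1 : (∃ s ∈ codes K, s.length = N) ↔ ∃ s ∈ codes K', s.length = N := by
    constructor
    · rintro ⟨s, hs, h2⟩
      exact ⟨s, (h s h2).1 hs, h2⟩
    · rintro ⟨s, hs, h2⟩
      exact ⟨s, (h s h2).2 hs, h2⟩
  unfold cw
  by_cases h3 : ∃ s ∈ codes K, s.length = N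
  · rw [if_pos h3, if_pos (h1.1 h3)]
    refine congrArg (std S N) (funext fun s => ?_)
    refine decide_eq_decide.2 (and_congr_right fun h3 => ?_)
    rw [h s h3]
  · rw [if_neg h3, if_neg fun h4 => h3 (h1.2 h4)]

theorem mem_ps_cw {W : S.W} {K : Set (ℕ × List Bool)} {s : List Bool} :
    s ∈ ps (cw W K) ↔ s ∈ ps W ∨ s ∈ codes K := by
  classical
  rw [mem_ps_len (N := s.length) rfl]
  unfold cw
  by_cases h : ∃ s' ∈ codes K, s'.length = s.length
  · rw [if_pos h]
    show s.length = s.length ∧ S.pl s.length (std S s.length _) s = true ↔ _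
    rw [std_spec _ _ rfl]
    simp
  · rw [if_neg h]
    rw [← mem_ps_len rfl]
    constructor
    · exact fun h1 => Or.inl h1
    · rintro (h1 | h1)
      · exact h1
      · exact absurd ⟨s, h1, rfl⟩ h

theorem wd_self (W : S.W) (K : Set (ℕ × List Bool)) (N : ℕ) (x : S.X N) : wd W K N x N = x :=
  update_self _ _ _

theorem wd_ne (W : S.W) (K : Set (ℕ × List Bool)) {N N' : ℕ} (x : S.X N) (h : N' ≠ N) :
    wd W K N x N' = cw W K N' :=
  update_of_ne h _ _

theorem mem_ps_wd_eq {W : S.W} {K : Set (ℕ × List Bool)} {N : ℕ} {x : S.X N} {s : List Bool}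
    (h : s.length = N) : s ∈ ps (wd W K N x) ↔ s ∈ Tab x := by
  rw [mem_ps_len h, wd_self]

theorem mem_ps_wd_ne {W : S.W} {K : Set (ℕ × List Bool)} {N : ℕ} {x : S.X N} {s : List Bool}
    (h : s.length ≠ N) : s ∈ ps (wd W K N x) ↔ s ∈ ps W ∨ s ∈ codes K := by
  rw [← mem_ps_cw]
  exact mem_ps_of (wd_ne W K x h)

end Pool.Agent.LibAA75
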