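import Pool.Agent.LibAA75.B9
import Pool.Agent.LibAV75.E1

/-!
Row E1: advice can be defeated.
-/

namespace Pool.Agent.LibAA75

open Filter Function Pool.Agent.LibNexp Pool.Agent.LibBHN Pool.Agent.LibAL48
open Pool.Agent.LibAV75 (ex AccE code codes fib lay WL orc orc_iff err prog le_ex length_code
  code_head code_injective code_far lay_mono lay_sq mem_fib card_fib fib_disjoint fib_head Old)
open Pool.Agent.LibAA59 (SysA Tab Same Fut Cert Sim Dead MM KK gb)

variable {S : SysA}

/-- Machine number `j` (with the rich oracle) with any advice of length at most `a` fails on some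
string of length `n` to recognise the complement of the language of witnesses (with the plain
oracle). -/
def GE (j n a : ℕ) (W : S.W) : Prop :=
  ∀ v : List Bool, v.length ≤ a → ∃ u : List Bool, u.length = n ∧
    (AccE (S.rich W) j (pair u v) ↔ u ∈ WL (S.plain W))

private theorem E1_len {n a : ℕ} {x v : List Bool} (hx : x.length = n) (hv : v.length ≤ a) :
    (pair x v).length ≤ 2 * n + 2 + a := by
  rw [length_pair, hx]
  omega

private theorem E1_cert_mono {N q q' : ℕ} {acc : S.X N → Prop} (h : q ≤ q') (hc : Cert q acc) :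
    Cert q' acc := fun x hx => by
  obtain ⟨C, hC, h1⟩ := hc x hx
  exact ⟨C, hC.trans h, h1⟩

/-- PLAN. As `LibAV75.ge_forced` (LibAV75/E1.lean, proved), with `LibAA59.a6` and `wl_iff`. -/
theorem ge_forced {j n a fbd : ℕ}
    (h : fbd + 2 ^ (a + 1) * 2 ^ ex j (2 * n + 2 + a) < 2 ^ 2 ^ n) :
    Forced (S := S) n (a + 1) fbd (GE j n a) := by
  classical
  intro V F I hI hcard hF hfree
  have hAc : ((Finset.range (a + 1)).biUnion strs).card ≤ 2 ^ (a + 1) :=
    LibAV75.B2_strs_card (a + 1)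
  obtain ⟨x', hx', hP3⟩ := LibAA59.a6 ((Finset.range (a + 1)).biUnion strs) I
    (fun v u (x : S.X (n + 2 ^ n)) => AccE (S.rich (update V (n + 2 ^ n) x)) j (pair u v)) fib
    (fun u hu s hs => by
      rw [(fib_head (hI u hu).2 hs).2, (hI u hu).1])
    (q := 2 ^ ex j (2 * n + 2 + a)) (fun v hv u hu => by
      obtain ⟨l, hl, hvl⟩ := Finset.mem_biUnion.1 hv
      have h1 : v.length ≤ a := by
        rw [mem_strs.1 hvl]
        have := Finset.mem_range.1 hl
        omega
      exact E1_cert_mono (Nat.pow_le_pow_right (by norm_num)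
        (LibAV75.ex_mono (E1_len (hI u hu).1 h1))) (accE_cert V (n + 2 ^ n) j (pair u v)))
    (V (n + 2 ^ n)) F hfree
    (fun x hx y hy hxy => fib_disjoint (by rw [(hI x hx).1, (hI y hy).1]) hxy)
    (fun x hx => by
      rw [card_fib, (hI x hx).1]
      have h1 : ((Finset.range (a + 1)).biUnion strs).card *
          2 ^ ex j (2 * n + 2 + a) ≤ 2 ^ (a + 1) * 2 ^ ex j (2 * n + 2 + a) :=
        Nat.mul_le_mul_right _ hAc
      omega)
    (hAc.trans hcard)
  refine ⟨x', hx', fun v hv => ?_⟩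
  obtain ⟨u, huI, hu2⟩ := hP3 v (Finset.mem_biUnion.2
    ⟨v.length, Finset.mem_range.2 (Nat.lt_succ_of_le hv), mem_strs.2 rfl⟩)
  refine ⟨u, (hI u huI).1, ?_⟩
  rw [wl_iff (hI u huI).1 (hI u huI).2, update_self]
  exact hu2

/-- PLAN. As `LibAV75.ge_local`. -/
theorem ge_local {j n a M : ℕ} (h1 : 2 ^ (ex j (2 * n + 2 + a) + 1) ≤ M) (h2 : n + 2 ^ n < M) :
    Local (S := S) M (GE j n a) := by
  intro W W' hWW hG v hv
  obtain ⟨u, hu, h3⟩ := hG v hv
  refine ⟨u, hu, ?_⟩
  have e1 : AccE (S.rich W) j (pair u v) ↔ AccE (S.rich W') j (pair u v) := by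
    refine accE_congr fun N hN => hWW N ?_
    have h4 : 2 ^ (ex j (pair u v).length + 1) ≤ 2 ^ (ex j (2 * n + 2 + a) + 1) :=
      Nat.pow_le_pow_right (by norm_num) (Nat.succ_le_succ (LibAV75.ex_mono (E1_len hu hv)))
    exact hN.trans_le (h4.trans h1)
  have e2 : u ∈ WL (S.plain W) ↔ u ∈ WL (S.plain W') := by
    by_cases hu1 : [true] <+: u
    · rw [wl_iff hu hu1, wl_iff hu hu1, hWW _ h2]
    · exact ⟨fun h => absurd h.1 hu1, fun h => absurd h.1 hu1⟩
  rw [← e1, ← e2]
  exact h3

end Pool.Agent.LibAA75
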