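import Pool.Agent.LibAA75.B6
import Pool.Agent.LibAA75.B8
import Pool.Agent.LibAA75.B10
import Pool.Agent.LibAA75.E1

/-!
Row E2: the world for advice.
-/

namespace Pool.Agent.LibAA75

open Filter Function Pool.Agent.LibNexp Pool.Agent.LibBHN Pool.Agent.LibAL48
open Pool.Agent.LibAV75 (ex AccE code codes fib lay WL orc orc_iff err prog le_ex length_code
  code_head code_injective code_far lay_mono lay_sq mem_fib card_fib fib_disjoint fib_head Old)
open Pool.Agent.LibAA59 (SysA Tab Same Fut Cert Sim Dead MM KK gb)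

variable {S : SysA}

/-- PLAN. As `LibAV75.negE` (LibAV75/E2.lean, proved: copy it), with `e2_size`, `b6`, `b8`, `ge_forced`,
`ge_local` of this library. -/
theorem negE (S : SysA) (hS : Sim S) {r a : ℕ → ℕ} (hr : Monotone r)
    (ha : ∀ C : ℕ, ∃ᶠ n in atTop, a n + C * (r (n ^ C) + Nat.log 2 (n + 1)) < n) :
    ∃ W : S.W, Ap2 (S.rich W) (S.plain W) True r ∧ ¬ Enough2 (S.plain W) (S.rich W) a := by
  have hgood : ∀ i b : ℕ, ∃ n ≥ b,
      a n + (LibAV75.CC i + i + 2) * (r (n ^ (LibAV75.CC i + i + 2)) + Nat.log 2 (n + 1)) < n ∧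
      (∀ c ≤ n, ∀ a ≤ n,
        (fb (i + 1) c (lay n (i + 3)))^[i + 3] 0 + 2 ^ (a + 1) * 2 ^ ex i (2 * n + 2 + a) < 2 ^ 2 ^ n ∧
          2 ^ (ex i (2 * n + 2 + a) + 1) ≤ 2 ^ (lay n (i + 3) + 1) ^ 2) := by
    intro i b
    exact Filter.frequently_atTop.1 ((ha (LibAV75.CC i + i + 2)).and_eventually (e2_size i)) b
  choose f hf1 hf2 hf3 using hgood
  obtain ⟨n, hn0, hnS⟩ : ∃ n : ℕ → ℕ, n 0 = f 0 2 ∧
      ∀ i, n (i + 1) = f (i + 1) (max (i + 3) ((lay (n i) (i + 3) + 1) ^ 2)) :=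
    ⟨fun i => Nat.rec (f 0 2) (fun i m => f (i + 1) (max (i + 3) ((lay m (i + 3) + 1) ^ 2))) i,
      rfl, fun _ => rfl⟩
  have hni : ∀ i, i + 2 ≤ n i := by
    intro i
    cases i with
    | zero => rw [hn0]; exact hf1 0 2
    | succ i =>
      rw [hnS]
      exact le_trans (le_max_left _ _) (hf1 (i + 1) _)
  have hnn : ∀ i, (lay (n i) (i + 3) + 1) ^ 2 ≤ n (i + 1) := by
    intro i
    rw [hnS]
    exact le_trans (le_max_right _ _) (hf1 (i + 1) _)
  have h2 : ∀ i, a (n i) + (LibAV75.CC i + i + 2) * (r (n i ^ (LibAV75.CC i + i + 2)) + Nat.log 2 (n i + 1)) <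
      n i := by
    intro i
    cases i with
    | zero => rw [hn0]; exact hf2 0 2
    | succ i => rw [hnS]; exact hf2 (i + 1) _
  have h3 : ∀ i, ∀ c ≤ n i, ∀ a ≤ n i,
      (fb (i + 1) c (lay (n i) (i + 3)))^[i + 3] 0 +
        2 ^ (a + 1) * 2 ^ ex i (2 * n i + 2 + a) < 2 ^ 2 ^ n i ∧
        2 ^ (ex i (2 * n i + 2 + a) + 1) ≤ 2 ^ (lay (n i) (i + 3) + 1) ^ 2 := by
    intro i
    cases i with
    | zero => rw [hn0]; exact hf3 0 2
    | succ i => rw [hnS]; exact hf3 (i + 1) _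
  have hsm : StrictMono n := by
    refine strictMono_nat_of_lt_succ fun i => ?_
    refine lt_of_lt_of_le ?_ (hnn i)
    have h4 : n i ≤ lay (n i) (i + 3) := by
      unfold lay
      exact Nat.le_self_pow (by positivity) _
    nlinarith
  have hb : ∀ i, ∃ β, (i + 1) * lay (n i) (i + 3) ≤ 2 ^ β ∧
      ∀ R, (i + 3) * (R + β) + 3 ≤ LibAV75.CC i * (R + Nat.log 2 (n i + 1)) :=
    fun i => LibAV75.b10_beta (by have := hni i; omega)
  choose β hβ1 hβ2 using hb
  have hvis : ∀ i, _ := fun i => LibAV75.b10_vis (i := i) (n := n i) (by have := hni i; omega)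
    (by have := hni i; omega)
  have hkey : ∀ i, a (n i) + i + 1 + (i + 3) * (r (lay (n i) (i + 3)) + β i) + 1 ≤ n i := by
    intro i
    have hl : 1 ≤ Nat.log 2 (n i + 1) := Nat.log_pos (by norm_num) (by have := hni i; omega)
    have h5 : r (lay (n i) (i + 3)) ≤ r (n i ^ (LibAV75.CC i + i + 2)) := by
      refine hr ((hvis i).2.2.trans (Nat.pow_le_pow_right (by have := hni i; omega) (by omega)))
    have h6 : (i + 3) * (r (lay (n i) (i + 3)) + β i) + 3 ≤
        LibAV75.CC i * (r (n i ^ (LibAV75.CC i + i + 2)) + Nat.log 2 (n i + 1)) :=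
      le_trans (by gcongr) (hβ2 i _)
    have h7 : i + 2 ≤ (i + 2) * (r (n i ^ (LibAV75.CC i + i + 2)) + Nat.log 2 (n i + 1)) :=
      Nat.le_mul_of_pos_right _ (by omega)
    have h8 := h2 i
    have h9 : (LibAV75.CC i + i + 2) * (r (n i ^ (LibAV75.CC i + i + 2)) + Nat.log 2 (n i + 1)) =
        LibAV75.CC i * (r (n i ^ (LibAV75.CC i + i + 2)) + Nat.log 2 (n i + 1)) +
        (i + 2) * (r (n i ^ (LibAV75.CC i + i + 2)) + Nat.log 2 (n i + 1)) := by ring
    rw [h9] at h8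
    omega
  obtain ⟨W, hA1, hA2, hA3, hA4, hA5⟩ := b6 (S := S) hS (n := n) (E := fun i => i + 1)
    (R := fun i => r (lay (n i) (i + 3))) (D := fun i => i + 3) (β := β)
    (y := fun i => a (n i) + i + 1)
    (G := fun i => GE i (n i) (a (n i) + i))
    (fun i => by have := hni i; omega) hnn hβ1
    (fun i => by
      have h6 := hkey i
      omega)
    (fun i => by
      have h6 := hkey i
      have h7 : r (lay (n i) (i + 3)) + β i ≤ (i + 3) * (r (lay (n i) (i + 3)) + β i) :=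
        Nat.le_mul_of_pos_left _ (by omega)
      exact ge_forced (h3 i _ (by omega) _ (by omega)).1)
    (fun i => ge_local (h3 i 0 (Nat.zero_le _) _ (by have h6 := hkey i; omega)).2 (hvis i).2.1)
  refine ⟨W, ?_, ?_⟩
  · rw [← orc_ps W]
    refine b8 hr hsm (fun e => ?_) (fun i => le_rfl) hA1 hA2 hA3 hA4
    filter_upwards [eventually_ge_atTop e] with i hi
    omega
  · intro hE
    obtain ⟨c, B, hB, g, hg, heq⟩ := hE (WL (S.plain W)) (LibAV75.wl_mem _)
    obtain ⟨i, hi, hiB⟩ := LibAV75.exists_machine hB c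
    have h9 : GE i (n i) (a (n i) + i) W := hA5 i
    have h10 : (g (n i)).length ≤ a (n i) + i := (hg (n i)).trans (by omega)
    obtain ⟨x, hx, hx2⟩ := h9 (g (n i)) h10
    have h11 : x ∈ (WL (S.plain W))ᶜ ↔ pair x (g x.length) ∈ B := by
      rw [heq]
      rfl
    rw [hx, hiB, hx2, Set.mem_compl_iff] at h11
    tauto

end Pool.Agent.LibAA75
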