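import Pool.Agent.LibAA75.V1
import Pool.Agent.LibAV75.V5

/-!
Row V5: numbers.
-/

namespace Pool.Agent.LibAA75

open Filter Function Pool.Agent.LibNexp Pool.Agent.LibBHN Pool.Agent.LibAL48
open Pool.Agent.LibAV75 (ex AccE code codes fib lay WL orc orc_iff err prog le_ex length_code
  code_head code_injective code_far lay_mono lay_sq mem_fib card_fib fib_disjoint fib_head Old
  Xs mem_Xs card_Xs V1_Z V1_mem V1_K V1_lay0 V1_layer)
open Pool.Agent.LibAA59 (SysA Tab Same Fut Cert Sim Dead MM KK gb GameA Mv pz w6 w7 pz_num)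

variable {S : SysA}

private theorem V5_lay {n i : ℕ} (hn : 1 ≤ n) : n ≤ lay n (i + 3) ∧
    n ^ (i + 1) ≤ lay n (i + 3) := by
  unfold lay
  constructor
  · calc n = n ^ 1 := (pow_one n).symm
      _ ≤ n ^ 2 ^ (i + 3) := Nat.pow_le_pow_right hn Nat.one_le_two_pow
  · refine Nat.pow_le_pow_right hn ?_
    have : i + 3 < 2 ^ (i + 3) := Nat.lt_two_pow_self
    omega

/-- PLAN. With `L := lay ν (i + 3)` (`ν ≤ L` for `ν ≥ 1`) and `pz_num`:
`ft ν (i + 1) (i + 3) c ≤ 2 ^ ((20 * L + 10 * i + 20) * ((i + 4) * 2 ^ c + (i + 3)))` and the exponent is at most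
`2 ^ c * ((20 * L + 10 * i + 20) * (2 * i + 7))`. As `ex i (ν - 1) ≤ L + i + 1`, the left side is at most
`2 ^ (2 ^ c * ((20 * L + 10 * i + 20) * (2 * i + 7)) + 1)`. For `ν` (so `L`) larger than a constant depending
on `i` one has `(20 * L + 10 * i + 20) * (2 * i + 7) + 2 ≤ L ^ 2`; so the exponent is less than
`2 ^ c * L ^ 2 ≤ 2 ^ ν`. (Suggestion: `filter_upwards [eventually_ge_atTop ((50 * (i + 5)) ^ 2)]` and
`nlinarith`.) -/
theorem v5_size (i : ℕ) : ∀ᶠ ν in atTop, ∀ c, 2 ^ c * lay ν (i + 3) ^ 2 ≤ 2 ^ ν →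
    ft ν (i + 1) (i + 3) c + 2 ^ ex i (ν - 1) < 2 ^ 2 ^ ν := by
  filter_upwards [eventually_ge_atTop ((50 * (i + 5)) ^ 2)] with ν hν c hc
  have h50 : 1 ≤ (50 * (i + 5)) ^ 2 := Nat.one_le_iff_ne_zero.2 (by positivity)
  have hν1 : 1 ≤ ν := h50.trans hν
  obtain ⟨h2, h3⟩ := V5_lay (i := i) hν1
  have hex : ex i (ν - 1) ≤ lay ν (i + 3) + (i + 1) := by
    unfold ex
    have h4 : (ν - 1) ^ (i + 1) ≤ ν ^ (i + 1) := Nat.pow_le_pow_left (Nat.sub_le _ _) _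
    omega
  unfold ft
  have hL : (50 * (i + 5)) ^ 2 ≤ lay ν (i + 3) := hν.trans h2
  generalize lay ν (i + 3) = L at h2 h3 hc hex hL ⊢
  have a1 := pz_num (n := ν - 1) (i := i) (L := L) (by omega)
  generalize pz (ν - 1) (2 ^ L) ((i + 1) * 2 ^ L) = p at a1 ⊢
  have h2c : 1 ≤ 2 ^ c := Nat.one_le_two_pow
  have hP : (20 * L + 10 * i + 20) * (2 * i + 7) + 2 ≤ L ^ 2 := by
    have b1 : (20 * L + 10 * i + 20) * (2 * i + 7) + 2 ≤ (50 * (i + 5)) ^ 2 * L := by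
      have hL1 : 1 ≤ L := h50.trans hL
      have b2 : (20 * L + 10 * i + 20) * (2 * i + 7) + 2 ≤
          ((20 + 10 * i + 20) * (2 * i + 7) + 2) * L := by
        have b3 : 10 * i ≤ 10 * i * L := Nat.le_mul_of_pos_right _ hL1
        have b4 : (20 * L + 10 * i + 20) ≤ (20 + 10 * i + 20) * L := by
          nlinarith
        calc (20 * L + 10 * i + 20) * (2 * i + 7) + 2
            ≤ ((20 + 10 * i + 20) * L) * (2 * i + 7) + 2 * L :=
              Nat.add_le_add (Nat.mul_le_mul_right _ b4) (by omega)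
          _ = ((20 + 10 * i + 20) * (2 * i + 7) + 2) * L := by ring
      refine b2.trans (Nat.mul_le_mul_right _ ?_)
      nlinarith [Nat.zero_le i]
    calc (20 * L + 10 * i + 20) * (2 * i + 7) + 2 ≤ (50 * (i + 5)) ^ 2 * L := b1
      _ ≤ L * L := Nat.mul_le_mul_right _ hL
      _ = L ^ 2 := by ring
  generalize hPd : 20 * L + 10 * i + 20 = P at a1 hP
  have hPL : L + (i + 1) ≤ P := by omega
  have a2 : p ^ ((i + 3 + 1) * 2 ^ c + (i + 3)) ≤ 2 ^ (2 ^ c * (P * (2 * i + 7))) := by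
    calc p ^ ((i + 3 + 1) * 2 ^ c + (i + 3)) ≤ (2 ^ P) ^ ((i + 3 + 1) * 2 ^ c + (i + 3)) :=
          Nat.pow_le_pow_left a1 _
      _ = 2 ^ (P * ((i + 3 + 1) * 2 ^ c + (i + 3))) := by rw [← pow_mul]
      _ ≤ 2 ^ (2 ^ c * (P * (2 * i + 7))) := by
          refine Nat.pow_le_pow_right (by norm_num) ?_
          calc P * ((i + 3 + 1) * 2 ^ c + (i + 3)) ≤
                P * ((i + 3 + 1) * 2 ^ c + (i + 3) * 2 ^ c) :=
                Nat.mul_le_mul_left _ (Nat.add_le_add_left (Nat.le_mul_of_pos_right _ h2c) _)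
            _ = 2 ^ c * (P * (2 * i + 7)) := by ring
  have a3 : 2 ^ ex i (ν - 1) ≤ 2 ^ (2 ^ c * (P * (2 * i + 7))) := by
    refine Nat.pow_le_pow_right (by norm_num) ?_
    calc ex i (ν - 1) ≤ P := hex.trans hPL
      _ ≤ P * (2 * i + 7) := Nat.le_mul_of_pos_right _ (by omega)
      _ ≤ 2 ^ c * (P * (2 * i + 7)) := Nat.le_mul_of_pos_left _ (by omega)
  calc p ^ ((i + 3 + 1) * 2 ^ c + (i + 3)) + 2 ^ ex i (ν - 1)
      ≤ 2 ^ (2 ^ c * (P * (2 * i + 7))) + 2 ^ (2 ^ c * (P * (2 * i + 7))) := Nat.add_le_add a2 a3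
    _ = 2 ^ (2 ^ c * (P * (2 * i + 7)) + 1) := by rw [pow_succ]; ring
    _ < 2 ^ 2 ^ ν := by
        refine Nat.pow_lt_pow_right (by norm_num) ?_
        refine lt_of_lt_of_le ?_ hc
        calc 2 ^ c * (P * (2 * i + 7)) + 1 < 2 ^ c * (P * (2 * i + 7)) + 2 ^ c * 2 := by omega
          _ = 2 ^ c * (P * (2 * i + 7) + 2) := by ring
          _ ≤ 2 ^ c * L ^ 2 := Nat.mul_le_mul_left _ hP

/-- The constant of stage `i`. -/
def CI (i : ℕ) : ℕ := 8 ^ (i + 3) * (2 ^ (i + 7) + 2 * i + 12) + 5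

/-- PLAN. As `LibAV75.v5_beta` (LibAV75/V5.lean, proved: copy it, same `β`); the additional `2 * β` is covered
by the larger constant (`2 * β ≤ 8 ^ (i + 3) * β`, and `2 ^ (i + 7) + 2 * i + 12` is twice the old factor). -/
theorem v5_beta {i n : ℕ} (hn : 2 ≤ n) : (∃ β, (i + 1) * lay (n + 1) (i + 3) ≤ 2 ^ β ∧
    ∀ R, 8 ^ (i + 3) * (R + β + 4) + 2 * β + 5 ≤ CI i * (R + Nat.log 2 (n + 1))) ∧
    lay (n + 1) (i + 3) ≤ n ^ CI i ∧
    2 ^ (ex i n + 1) ≤ 2 ^ (lay (n + 1) (i + 3) + 1) ^ 2 ∧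
    (n + 1) + 2 ^ (n + 1) < 2 ^ (lay (n + 1) (i + 3) + 1) ^ 2 := by
  have h5 : 2 ^ (i + 7) = 16 * 2 ^ (i + 3) := by rw [pow_add, pow_add]; ring
  have hU : 8 ≤ 8 ^ (i + 3) := by
    calc 8 = 8 ^ 1 := by norm_num
      _ ≤ 8 ^ (i + 3) := Nat.pow_le_pow_right (by norm_num) (by omega)
  obtain ⟨h2, h3⟩ := V5_lay (n := n + 1) (i := i) (by omega)
  refine ⟨⟨2 ^ (i + 3) * (Nat.log 2 (n + 1) + 1) + (i + 1), ?_, fun R => ?_⟩, ?_, ?_, ?_⟩
  · have h1 : n + 1 ≤ 2 ^ (Nat.log 2 (n + 1) + 1) := by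
      have := Nat.lt_pow_succ_log_self (b := 2) (by norm_num) (n + 1)
      rw [Nat.succ_eq_add_one] at this
      omega
    have h2 : i + 1 ≤ 2 ^ (i + 1) := (Nat.lt_two_pow_self (n := i + 1)).le
    unfold lay
    calc (i + 1) * (n + 1) ^ 2 ^ (i + 3)
        ≤ 2 ^ (i + 1) * (2 ^ (Nat.log 2 (n + 1) + 1)) ^ 2 ^ (i + 3) :=
          Nat.mul_le_mul h2 (Nat.pow_le_pow_left h1 _)
      _ = 2 ^ (2 ^ (i + 3) * (Nat.log 2 (n + 1) + 1) + (i + 1)) := by
          rw [← pow_mul, ← pow_add, mul_comm (2 ^ (i + 3)), add_comm (i + 1)]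
  · have hl : 1 ≤ Nat.log 2 (n + 1) := Nat.log_pos (by norm_num) (by omega)
    unfold CI
    generalize Nat.log 2 (n + 1) = l at hl ⊢
    rw [h5]
    generalize 2 ^ (i + 3) = T
    generalize 8 ^ (i + 3) = U at hU ⊢
    generalize hβ : T * (l + 1) + (i + 1) = β
    have h7 : R + 2 * β + 4 ≤ (16 * T + 2 * i + 12) * (R + l) := by
      rw [← hβ]
      nlinarith
    have h8 : 2 * β ≤ U * β := Nat.mul_le_mul_right _ (by omega)
    calc U * (R + β + 4) + 2 * β + 5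
        ≤ U * (R + β + 4) + U * β + 5 := by omega
      _ = U * (R + 2 * β + 4) + 5 := by ring
      _ ≤ U * ((16 * T + 2 * i + 12) * (R + l)) + 5 * (R + l) :=
          Nat.add_le_add (Nat.mul_le_mul_left _ h7) (by omega)
      _ = (U * (16 * T + 2 * i + 12) + 5) * (R + l) := by ring
  · unfold lay
    calc (n + 1) ^ 2 ^ (i + 3) ≤ (n ^ 2) ^ 2 ^ (i + 3) := Nat.pow_le_pow_left (by nlinarith) _
      _ = n ^ (2 * 2 ^ (i + 3)) := by rw [← pow_mul]
      _ ≤ n ^ CI i := by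
          refine Nat.pow_le_pow_right (by omega) ?_
          unfold CI
          rw [h5]
          have h6 : 0 < 8 ^ (i + 3) := by positivity
          have h7 : 16 * 2 ^ (i + 3) + 2 * i + 12 ≤
              8 ^ (i + 3) * (16 * 2 ^ (i + 3) + 2 * i + 12) :=
            Nat.le_mul_of_pos_left _ h6
          omega
  · refine Nat.pow_le_pow_right (by norm_num) ?_
    have h6 : i + 1 ≤ lay (n + 1) (i + 3) := by
      have h7 : i + 1 < (n + 1) ^ (i + 1) := Nat.lt_pow_self (by omega)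
      omega
    have h8 : n ^ (i + 1) ≤ lay (n + 1) (i + 3) :=
      (Nat.pow_le_pow_left (Nat.le_succ n) _).trans h3
    unfold ex
    generalize lay (n + 1) (i + 3) = L at h6 h8 ⊢
    generalize n ^ (i + 1) = a at h8 ⊢
    nlinarith
  · generalize lay (n + 1) (i + 3) = L at h2 h3 ⊢
    have h4 : n + 1 < 2 ^ (n + 1) := Nat.lt_two_pow_self
    calc (n + 1) + 2 ^ (n + 1) < 2 ^ (n + 1) + 2 ^ (n + 1) := by omega
      _ = 2 ^ (n + 1 + 1) := by rw [pow_succ]; ring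
      _ ≤ 2 ^ (L + 1) ^ 2 := Nat.pow_le_pow_right (by norm_num) (by nlinarith)

end Pool.Agent.LibAA75
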