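import Pool.Agent.LibAA75.V3
import Pool.Agent.LibAA75.V4
import Pool.Agent.LibAA75.V5
import Pool.Agent.LibAV75.V4

/-!
Row V6: the world.
-/

namespace Pool.Agent.LibAA75

open Filter Function Pool.Agent.LibNexp Pool.Agent.LibBHN Pool.Agent.LibAL48
open Pool.Agent.LibAV75 (ex AccE code codes fib lay WL orc orc_iff err prog le_ex length_code
  code_head code_injective code_far lay_mono lay_sq mem_fib card_fib fib_disjoint fib_head Old
  Xs mem_Xs card_Xs V1_Z V1_mem V1_K V1_lay0 V1_layer)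
open Pool.Agent.LibAA59 (SysA Tab Same Fut Cert Sim Dead MM KK gb GameA Mv pz w6 w7 pz_num)

variable {S : SysA}

private theorem V6_cnt_mono {n : ℕ} {P Q : List Bool → Prop} (h : ∀ x, P x → Q x) :
    cnt n P ≤ cnt n Q := by
  unfold cnt
  refine Finset.card_le_card fun m hm => ?_
  simp only [Finset.mem_filter] at hm ⊢
  exact ⟨hm.1, h _ hm.2⟩

/-- PLAN. As `LibAV75.negI` (LibAV75/V6.lean, proved: copy it), with `v5_size`, `v5_beta`, `v3`, `v4` of this
library; `wlp_mem`, `exists_machine` of LibAV75 (`X := S.rich W`, `orc (ps W) = S.plain W`: `orc_ps`).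
The condition of `v5_size` at `ν = m i + 1`, `c = 8 ^ (i + 3) * (R i + β i + 4)`:
`2 ^ c * L ^ 2 ≤ 2 ^ c * (2 ^ β i) ^ 2 = 2 ^ (c + 2 * β i) ≤ 2 ^ ν` as `L ≤ (i + 1) * L ≤ 2 ^ β i`,
`c + 2 * β i + 5 < m i`. -/
theorem negI (S : SysA) (hS : Sim S) {r s : ℕ → ℕ} (hr : Monotone r)
    (hs : ∀ C : ℕ, ∃ᶠ n in atTop, s n ≠ 0 ∧ C * (r (n ^ C) + Nat.log 2 (n + 1)) < n) :
    ∃ W : S.W, Ap2 (S.rich W) (S.plain W) False r ∧ ¬ Ap2 (S.plain W) (S.rich W) True s := by
  have hgood : ∀ i b : ℕ, ∃ m ≥ b,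
      (s m ≠ 0 ∧ CI i * (r (m ^ CI i) + Nat.log 2 (m + 1)) < m) ∧
      (∀ c, 2 ^ c * lay (m + 1) (i + 3) ^ 2 ≤ 2 ^ (m + 1) →
        ft (m + 1) (i + 1) (i + 3) c + 2 ^ ex i (m + 1 - 1) < 2 ^ 2 ^ (m + 1)) := by
    intro i b
    exact Filter.frequently_atTop.1 ((hs (CI i)).and_eventually
      ((tendsto_add_atTop_nat 1).eventually (v5_size i))) b
  choose f hf1 hf2 hf3 using hgood
  obtain ⟨m, hm0, hmS⟩ : ∃ m : ℕ → ℕ, m 0 = f 0 2 ∧
      ∀ i, m (i + 1) = f (i + 1) (max (i + 3) ((lay (m i + 1) (i + 3) + 1) ^ 2)) :=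
    ⟨fun i => Nat.rec (f 0 2)
      (fun i m => f (i + 1) (max (i + 3) ((lay (m + 1) (i + 3) + 1) ^ 2))) i,
      rfl, fun _ => rfl⟩
  have hmi : ∀ i, i + 2 ≤ m i := by
    intro i
    cases i with
    | zero => rw [hm0]; exact hf1 0 2
    | succ i =>
      rw [hmS]
      exact le_trans (le_max_left _ _) (hf1 (i + 1) _)
  have hmm : ∀ i, (lay (m i + 1) (i + 3) + 1) ^ 2 ≤ m (i + 1) := by
    intro i
    rw [hmS]
    exact le_trans (le_max_right _ _) (hf1 (i + 1) _)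
  have h2 : ∀ i, s (m i) ≠ 0 ∧ CI i * (r (m i ^ CI i) + Nat.log 2 (m i + 1)) < m i := by
    intro i
    cases i with
    | zero => rw [hm0]; exact hf2 0 2
    | succ i => rw [hmS]; exact hf2 (i + 1) _
  have h3 : ∀ i, ∀ c, 2 ^ c * lay (m i + 1) (i + 3) ^ 2 ≤ 2 ^ (m i + 1) →
      ft (m i + 1) (i + 1) (i + 3) c + 2 ^ ex i (m i + 1 - 1) < 2 ^ 2 ^ (m i + 1) := by
    intro i
    cases i with
    | zero => rw [hm0]; exact hf3 0 2
    | succ i => rw [hmS]; exact hf3 (i + 1) _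
  have hsm : StrictMono fun i => m i + 1 := by
    refine strictMono_nat_of_lt_succ fun i => ?_
    have h5 := hmm i
    have h4 : m i + 1 ≤ lay (m i + 1) (i + 3) := by
      unfold lay
      exact Nat.le_self_pow (by positivity) _
    show m i + 1 < m (i + 1) + 1
    nlinarith
  have hb : ∀ i, _ := fun i => v5_beta (i := i) (n := m i) (by have := hmi i; omega)
  choose β hβ1 hβ2 using fun i => (hb i).1
  have hkey : ∀ i, 8 ^ (i + 3) * (r (lay (m i + 1) (i + 3)) + β i + 4) + 2 * β i + 5 < m i := by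
    intro i
    have h5 : r (lay (m i + 1) (i + 3)) ≤ r (m i ^ CI i) := hr (hb i).2.1
    calc 8 ^ (i + 3) * (r (lay (m i + 1) (i + 3)) + β i + 4) + 2 * β i + 5
        ≤ 8 ^ (i + 3) * (r (m i ^ CI i) + β i + 4) + 2 * β i + 5 := by gcongr
      _ ≤ CI i * (r (m i ^ CI i) + Nat.log 2 (m i + 1)) := hβ2 i _
      _ < m i := (h2 i).2
  have hlay : ∀ i, 2 ^ (8 ^ (i + 3) * (r (lay (m i + 1) (i + 3)) + β i + 4)) *
      lay (m i + 1) (i + 3) ^ 2 ≤ 2 ^ (m i + 1) := by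
    intro i
    have h5 : lay (m i + 1) (i + 3) ≤ 2 ^ β i :=
      le_trans (Nat.le_mul_of_pos_left _ (Nat.succ_pos i)) (hβ1 i)
    calc 2 ^ (8 ^ (i + 3) * (r (lay (m i + 1) (i + 3)) + β i + 4)) * lay (m i + 1) (i + 3) ^ 2
        ≤ 2 ^ (8 ^ (i + 3) * (r (lay (m i + 1) (i + 3)) + β i + 4)) * (2 ^ β i) ^ 2 :=
          Nat.mul_le_mul_left _ (Nat.pow_le_pow_left h5 2)
      _ = 2 ^ (8 ^ (i + 3) * (r (lay (m i + 1) (i + 3)) + β i + 4) + β i * 2) := by
          rw [← pow_mul, ← pow_add]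
      _ ≤ 2 ^ (m i + 1) := Nat.pow_le_pow_right (by norm_num) (by have h6 := hkey i; omega)
  obtain ⟨W, hA1, hA3, hA4, hA5⟩ := v3 hS (n := fun i => m i + 1) (E := fun i => i + 1)
    (R := fun i => r (lay (m i + 1) (i + 3))) (D := fun i => i + 3) (β := β) (j := fun i => i)
    (fun i => by omega) (fun i => (hmm i).trans (Nat.le_succ _)) hβ1
    (fun i => by
      have h6 := hkey i
      omega)
    (fun i => h3 i _ (hlay i))
    (fun i => (hb i).2.2.1) (fun i => (hb i).2.2.2)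
  refine ⟨W, ?_, ?_⟩
  · rw [← orc_ps W]
    refine v4 hr hsm (fun e => ?_) (fun i => le_rfl) hA1 hA3 hA4
    filter_upwards [eventually_ge_atTop e] with i hi
    omega
  · intro hI
    obtain ⟨N, hN, hsub, hev⟩ := hI {x | true :: x ∈ WitLang (S.plain W)} (LibAV75.wlp_mem _)
    replace hsub := hsub trivial
    obtain ⟨m₀, hm₀⟩ := Filter.eventually_atTop.1 hev
    obtain ⟨i, hi, hiN⟩ := LibAV75.exists_machine hN m₀
    have h8 := hm₀ (m i) (by have := hmi i; omega)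
    have h9 : GI i (m i) W := hA5 i
    rcases h9 with ⟨x, hx, hx1, hx2⟩ | h9
    · exact hsub ((hiN x).2 hx1) hx2
    · have h10 : cnt (m i) (fun x => ¬ AccE (S.rich W) i x ∧
          true :: x ∉ WitLang (S.plain W)) ≤
          err {x | true :: x ∈ WitLang (S.plain W)}ᶜ N (m i) := by
        refine V6_cnt_mono fun x hx h => ?_
        have h11 : x ∈ N := h.1 hx.2
        exact hx.1 ((hiN x).1 h11)
      have h12 : 2 ≤ 2 ^ s (m i) := by
        calc 2 = 2 ^ 1 := rfl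
          _ ≤ 2 ^ s (m i) := Nat.pow_le_pow_right (by norm_num)
            (Nat.one_le_iff_ne_zero.2 (h2 i).1)
      have h13 : 2 * err {x | true :: x ∈ WitLang (S.plain W)}ᶜ N (m i) ≤
          2 ^ s (m i) * err {x | true :: x ∈ WitLang (S.plain W)}ᶜ N (m i) :=
        Nat.mul_le_mul_right _ h12
      omega

end Pool.Agent.LibAA75
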