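import Pool.Agent.LibAA75.B11
import Pool.Agent.LibAA75.E2
import Pool.Agent.LibAA75.V6
import Pool.Agent.LibAA59.SimP
import Pool.Agent.LibAL48.Sub
import Pool.Agent.LibAV75.Main2
import Pool.Agent.LibHF75.T8

/-!
The negative parts, for extensions by polynomials.
-/

namespace Pool.Agent.LibAA75

open Filter Function Pool.Agent.LibNexp Pool.Agent.LibBHN Pool.Agent.LibAL48
open Pool.Agent.LibAV75 (err freq_of_not freq_of_notE freq_of_not' worst_iff)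
open Pool.Agent.LibAA59 (SysA Sim polyA sim_polyA)

/-- `Ω` is the oracle of an extension of `O` by polynomials over the fields of `𝕂`. -/
def Extends (𝕂 : Fields) (O Ω : List Bool → Bool) : Prop :=
  ∃ P : ∀ s n, MvPolynomial (Fin n) (𝕂.K s), IsExt 𝕂 O P ∧ Ω = ext 𝕂 O P

theorem extends_world {𝕂 : Fields} (E : (polyA 𝕂).W) :
    Extends 𝕂 ((polyA 𝕂).plain E) ((polyA 𝕂).rich E) :=
  ⟨fun s n => (E n).1.2 s, world_spec (𝕂 := 𝕂) E⟩

theorem nexp_sub {𝕂 : Fields} {O Ω : List Bool → Bool} (h : Extends 𝕂 O Ω) :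
    NEXPLang O ⊆ NEXPLang Ω := by
  obtain ⟨P, -, rfl⟩ := h
  intro L hL
  obtain ⟨c, hc⟩ := hL
  refine nexp_iff.2 ⟨_, ?_, ntime_tr (Ω := ext 𝕂 O P) (fun u => rfl) hc⟩
  have h1 : EP fun n => 2 ^ (n ^ c + c) := EP.pow2 ((PolyB.id.pow c).add (PolyB.const c))
  exact (EP.of_poly (PolyB.const 3)).mul h1

theorem Ap2.mono {X X' Y Y' : List Bool → Bool} (hX : NEXPLang X' ⊆ NEXPLang X)
    (hY : NEXPLang Y ⊆ NEXPLang Y') {b : Prop} {r : ℕ → ℕ} (h : Ap2 X Y b r) : Ap2 X' Y' b r := by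
  intro L hL
  obtain ⟨N, hN, h1⟩ := h L (hX hL)
  exact ⟨N, hY hN, h1⟩

/-- The hypothesis for machines with the extension, the conclusion for machines with the oracle. -/
theorem main1A (𝕂 : Fields) {r s : ℕ → ℕ} (hr : Monotone r)
    (h : ∀ O Ω, Extends 𝕂 O Ω → Ap2 Ω O True r → Ap2 O Ω False s) :
    ∃ C : ℕ, ∀ n ≥ C, min (s n) (n + 1) ≤ C * (r (n ^ C) + Nat.log 2 (n + 1)) := by
  by_contra hcon
  obtain ⟨W, h1, h2⟩ := negH (polyA 𝕂) (sim_polyA 𝕂) hr (freq_of_not hr hcon)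
  exact h2 (h _ _ (extends_world W) h1)

theorem main2A (𝕂 : Fields) {r : ℕ → ℕ} (hr : Monotone r)
    (h : ∀ O Ω, Extends 𝕂 O Ω → Ap2 Ω O True r → ∀ L ∈ NEXPLang O, Lᶜ ∈ NEXPLang Ω) :
    ∃ C : ℕ, ∀ n ≥ C, n ≤ r (n ^ C) := by
  have h1 := main1A 𝕂 (s := fun n => n + 1) hr fun O Ω hO h1 L hL =>
    ⟨Lᶜ, h O Ω hO h1 L hL, fun h => h.elim, Eventually.of_forall fun m => by
      have h2 : err Lᶜ Lᶜ m = 0 :=
        Pool.Agent.LibAV75.V7_cnt_none fun _ _ h3 => h3 Iff.rfl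
      rw [h2, mul_zero]
      exact Nat.zero_le _⟩
  simp only [min_self] at h1
  exact (worst_iff hr).1 h1

theorem main3A (𝕂 : Fields) {r a : ℕ → ℕ} (hr : Monotone r)
    (h : ∀ O Ω, Extends 𝕂 O Ω → Ap2 Ω O True r → Enough2 O Ω a) :
    ∃ C : ℕ, ∀ n ≥ C, n ≤ a n + C * (r (n ^ C) + Nat.log 2 (n + 1)) := by
  by_contra hcon
  obtain ⟨W, h1, h2⟩ := negE (polyA 𝕂) (sim_polyA 𝕂) hr (freq_of_notE hr hcon)
  exact h2 (h _ _ (extends_world W) h1)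

theorem main5A (𝕂 : Fields) {r s : ℕ → ℕ} (hr : Monotone r)
    (h : ∀ O Ω, Extends 𝕂 O Ω → Ap2 Ω O False r → Ap2 O Ω True s) :
    ∃ C : ℕ, ∀ n ≥ C, s n = 0 ∨ n ≤ C * (r (n ^ C) + Nat.log 2 (n + 1)) := by
  by_contra hcon
  obtain ⟨W, h1, h2⟩ := negI (polyA 𝕂) (sim_polyA 𝕂) hr (freq_of_not' hr hcon)
  exact h2 (h _ _ (extends_world W) h1)

end Pool.Agent.LibAA75
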