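import Pool.Agent.LibAA75.F1

/-!
The theorems with real exponents.
-/

namespace Pool.Agent.LibAA75

open Filter Function Pool.Agent.LibNexp Pool.Agent.LibBHN Pool.Agent.LibAL48
open Pool.Agent.LibAV75 (err)
open Pool.Agent.LibHF75 (main1R main2R main3R main5R cond_ceil worst_ceil)

/-- Approximation relative to two oracles with a real exponent. -/
def ApR2 (X Y : List Bool → Bool) (b : Prop) (r : ℕ → ℝ) : Prop :=
  ∀ L ∈ NEXPLang X, ∃ N ∈ NEXPLang Y, (b → N ⊆ Lᶜ) ∧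
    ∀ᶠ m in atTop, (2 : ℝ) ^ r m * err Lᶜ N m ≤ 2 ^ m

/-- Complements. -/
def Q2 (X Y : List Bool → Bool) : Prop := ∀ L ∈ NEXPLang X, Lᶜ ∈ NEXPLang Y

variable {X X' Y Y' O : List Bool → Bool} {b : Prop} {r : ℕ → ℝ}

theorem apR_iff : LibHF75.ApR O b r ↔ ApR2 O O b r := Iff.rfl

theorem enough_iff {a : ℕ → ℕ} : LibSpec30.Enough O a ↔ Enough2 O O a := Iff.rfl

theorem ApR2.mono (hX : NEXPLang X' ⊆ NEXPLang X) (hY : NEXPLang Y ⊆ NEXPLang Y')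
    (h : ApR2 X Y b r) : ApR2 X' Y' b r := by
  intro L hL
  obtain ⟨N, hN, h1⟩ := h L (hX hL)
  exact ⟨N, hY hN, h1⟩

theorem ApR2.drop (h : ApR2 X Y True r) : ApR2 X Y False r := by
  intro L hL
  obtain ⟨N, hN, -, h1⟩ := h L hL
  exact ⟨N, hN, fun h => h.elim, h1⟩

theorem apR2_cast {s : ℕ → ℕ} : ApR2 X Y b (fun n => (s n : ℝ)) ↔ Ap2 X Y b s := by
  have key : ∀ (L N : Lang) (m : ℕ), (2 : ℝ) ^ ((s m : ℕ) : ℝ) * err L N m ≤ 2 ^ m ↔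
      2 ^ s m * err L N m ≤ 2 ^ m := by
    intro L N m
    rw [Real.rpow_natCast]
    constructor
    · intro h
      exact_mod_cast h
    · intro h
      exact_mod_cast h
  unfold ApR2 Ap2
  simp only [key]

theorem apR2_ceil (h : Ap2 X Y b fun n => max 8 ⌈r n⌉₊) : ApR2 X Y b r := by
  intro L hL
  obtain ⟨N, hN, hb, h1⟩ := (apR2_cast.2 h) L hL
  refine ⟨N, hN, hb, ?_⟩
  filter_upwards [h1] with m hm
  refine le_trans (mul_le_mul_of_nonneg_right ?_ (Nat.cast_nonneg _)) hm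
  refine Real.rpow_le_rpow_of_exponent_le one_le_two ?_
  have h2 : r m ≤ (⌈r m⌉₊ : ℝ) := Nat.le_ceil _
  refine h2.trans ?_
  exact_mod_cast le_max_right _ _

theorem final1 (𝕂 : Fields) {r : ℕ → ℝ} {s : ℕ → ℕ} (hr : Monotone r) (h1 : 1 < r 0) :
    List.TFAE [
      ∀ O, ApR2 O O False r → ApR2 O O False (fun n => (s n : ℝ)),
      ∀ O, ApR2 O O True r → ApR2 O O True (fun n => (s n : ℝ)),
      ∀ O, ApR2 O O True r → ApR2 O O False (fun n => (s n : ℝ)),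
      ∀ O Ω, Extends 𝕂 O Ω → ApR2 Ω O False r → ApR2 O Ω False (fun n => (s n : ℝ)),
      ∀ O Ω, Extends 𝕂 O Ω → ApR2 Ω O True r → ApR2 O Ω True (fun n => (s n : ℝ)),
      ∀ O Ω, Extends 𝕂 O Ω → ApR2 Ω O True r → ApR2 O Ω False (fun n => (s n : ℝ)),
      ∃ C : ℕ, ∀ n ≥ C, ((min (s n) (n + 1) : ℕ) : ℝ) ≤ C * (r (n ^ C) + Nat.log 2 (n + 1))] := by
  have key := main1R (s := s) hr h1
  have up : ∀ b : Prop, (∀ O, ApR2 O O b r → ApR2 O O b (fun n => (s n : ℝ))) →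
      ∀ O Ω, Extends 𝕂 O Ω → ApR2 Ω O b r → ApR2 O Ω b (fun n => (s n : ℝ)) := by
    intro b h O Ω hO h2
    exact (h O (h2.mono (nexp_sub hO) subset_rfl)).mono subset_rfl (nexp_sub hO)
  tfae_have 1 ↔ 7 := key.out 0 3
  tfae_have 2 ↔ 7 := key.out 1 3
  tfae_have 3 ↔ 7 := key.out 2 3
  tfae_have 1 → 4 := up False
  tfae_have 2 → 5 := up True
  tfae_have 4 → 6 := fun h O Ω hO h2 => h O Ω hO h2.drop
  tfae_have 5 → 6 := fun h O Ω hO h2 => (h O Ω hO h2).drop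
  tfae_have 6 → 7 := by
    intro h
    obtain ⟨C, hC⟩ := main1A 𝕂 (r := fun n => max 8 ⌈r n⌉₊) (s := s) (LibHF75.T8_ceil_mono hr)
      fun O Ω hO h2 => apR2_cast.1 (h O Ω hO (apR2_ceil h2))
    apply cond_ceil hr h1
    refine ⟨C, fun n hn => ?_⟩
    have := hC n hn
    exact_mod_cast this
  tfae_finish

theorem final2 (𝕂 : Fields) {r : ℕ → ℝ} (hr : Monotone r) (h1 : 1 < r 0) : List.TFAE [
    ∀ O, ApR2 O O False r → Q2 O O,
    ∀ O, ApR2 O O True r → Q2 O O,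
    ∀ O Ω, Extends 𝕂 O Ω → ApR2 Ω O False r → Q2 O Ω,
    ∀ O Ω, Extends 𝕂 O Ω → ApR2 Ω O True r → Q2 O Ω,
    ∃ C : ℕ, ∀ n ≥ C, (n : ℝ) ≤ r (n ^ C)] := by
  have key := main2R hr h1
  tfae_have 1 ↔ 5 := key.out 0 2
  tfae_have 2 ↔ 5 := key.out 1 2
  tfae_have 1 → 3 := fun h O Ω hO h2 L hL =>
    nexp_sub hO (h O (h2.mono (nexp_sub hO) subset_rfl) L hL)
  tfae_have 3 → 4 := fun h O Ω hO h2 => h O Ω hO h2.drop
  tfae_have 4 → 5 := by
    intro h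
    exact worst_ceil hr h1 (main2A 𝕂 (r := fun n => max 8 ⌈r n⌉₊) (LibHF75.T8_ceil_mono hr)
      fun O Ω hO h2 => h O Ω hO (apR2_ceil h2))
  tfae_finish

theorem Enough2.mono {a : ℕ → ℕ} (hX : NEXPLang X' ⊆ NEXPLang X)
    (hY : NEXPLang Y ⊆ NEXPLang Y') (h : Enough2 X Y a) : Enough2 X' Y' a := by
  intro L hL
  obtain ⟨c, B, hB, h1⟩ := h L (hX hL)
  exact ⟨c, B, hY hB, h1⟩

theorem final3 (𝕂 : Fields) {r : ℕ → ℝ} {a : ℕ → ℕ} (hr : Monotone r) (h1 : 1 < r 0) :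
    List.TFAE [
      ∀ O, ApR2 O O False r → Enough2 O O a,
      ∀ O, ApR2 O O True r → Enough2 O O a,
      ∀ O Ω, Extends 𝕂 O Ω → ApR2 Ω O False r → Enough2 O Ω a,
      ∀ O Ω, Extends 𝕂 O Ω → ApR2 Ω O True r → Enough2 O Ω a,
      ∃ C : ℕ, ∀ n ≥ C, (n : ℝ) ≤ a n + C * (r (n ^ C) + Nat.log 2 (n + 1))] := by
  have key := main3R (a := a) hr h1
  tfae_have 1 ↔ 5 := key.out 0 2
  tfae_have 2 ↔ 5 := key.out 1 2
  tfae_have 1 → 3 := fun h O Ω hO h2 =>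
    (h O (h2.mono (nexp_sub hO) subset_rfl)).mono subset_rfl (nexp_sub hO)
  tfae_have 3 → 4 := fun h O Ω hO h2 => h O Ω hO h2.drop
  tfae_have 4 → 5 := by
    intro h
    obtain ⟨C, hC⟩ := main3A 𝕂 (r := fun n => max 8 ⌈r n⌉₊) (a := a) (LibHF75.T8_ceil_mono hr)
      fun O Ω hO h2 => h O Ω hO (apR2_ceil h2)
    have hx : ∃ C : ℕ, ∀ n ≥ C, (fun n : ℕ => (n : ℝ) - a n) n ≤
        C * (((max 8 ⌈r (n ^ C)⌉₊ : ℕ) : ℝ) + Nat.log 2 (n + 1)) :=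
      ⟨C, fun n hn => by
        have h4 := hC n hn
        have h5 : (n : ℝ) ≤ a n + C * (((max 8 ⌈r (n ^ C)⌉₊ : ℕ) : ℝ) + Nat.log 2 (n + 1)) := by
          exact_mod_cast h4
        show (n : ℝ) - a n ≤ _
        linarith⟩
    obtain ⟨D, hD⟩ := cond_ceil hr h1 (fun n : ℕ => (n : ℝ) - a n) hx
    exact ⟨D, fun n hn => by
      have := hD n hn
      linarith⟩
  tfae_finish

theorem final5 (𝕂 : Fields) {r : ℕ → ℝ} {s : ℕ → ℕ} (hr : Monotone r) (h1 : 1 < r 0) :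
    List.TFAE [
      ∀ O, ApR2 O O False r → ApR2 O O True (fun n => (s n : ℝ)),
      ∀ O Ω, Extends 𝕂 O Ω → ApR2 Ω O False r → ApR2 O Ω True (fun n => (s n : ℝ)),
      ∃ C : ℕ, ∀ n ≥ C, s n = 0 ∨ (n : ℝ) ≤ C * (r (n ^ C) + Nat.log 2 (n + 1))] := by
  have key := main5R (s := s) hr h1
  tfae_have 1 ↔ 3 := key
  tfae_have 1 → 2 := fun h O Ω hO h2 =>
    (h O (h2.mono (nexp_sub hO) subset_rfl)).mono subset_rfl (nexp_sub hO)
  tfae_have 2 → 3 := by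
    intro h
    obtain ⟨C, hC⟩ := main5A 𝕂 (r := fun n => max 8 ⌈r n⌉₊) (s := s) (LibHF75.T8_ceil_mono hr)
      fun O Ω hO h2 => apR2_cast.1 (h O Ω hO (apR2_ceil h2))
    have hx : ∃ C : ℕ, ∀ n ≥ C, (fun n : ℕ => if s n = 0 then (0 : ℝ) else n) n ≤
        C * (((max 8 ⌈r (n ^ C)⌉₊ : ℕ) : ℝ) + Nat.log 2 (n + 1)) :=
      ⟨C, fun n hn => by
        show (if s n = 0 then (0 : ℝ) else n) ≤ _
        split_ifs with h0
        · positivity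
        · have h4 := (hC n hn).resolve_left h0
          exact_mod_cast h4⟩
    obtain ⟨D, hD⟩ := cond_ceil hr h1 (fun n : ℕ => if s n = 0 then (0 : ℝ) else n) hx
    refine ⟨D, fun n hn => ?_⟩
    by_cases h0 : s n = 0
    · exact Or.inl h0
    · have := hD n hn
      simp only [h0, if_false] at this
      exact Or.inr this
  tfae_finish

end Pool.Agent.LibAA75
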