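import Pool.Agent.LibAA75.B1
import Pool.Agent.LibAA59.W6
import Pool.Agent.LibAA59.W7
import Pool.Agent.LibAV75.V1

/-!
Row V1: the layers of a stage of the two-sided construction.
-/

namespace Pool.Agent.LibAA75

open Filter Function Pool.Agent.LibNexp Pool.Agent.LibBHN Pool.Agent.LibAL48
open Pool.Agent.LibAV75 (ex AccE code codes fib lay WL orc orc_iff err prog le_ex length_code
  code_head code_injective code_far lay_mono lay_sq mem_fib card_fib fib_disjoint fib_head Old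
  Xs mem_Xs card_Xs V1_Z V1_mem V1_K V1_lay0 V1_layer)
open Pool.Agent.LibAA59 (SysA Tab Same Fut Cert Sim Dead MM KK gb GameA Mv pz w6 w7 pz_num)

variable {S : SysA}

open Classical in
/-- The state of stage `ν` after all layers: `K` the coded statements, `x` the world at the level
`ν + 2 ^ ν`, `F` the frozen queries, `Φ` the forbidden `u`. -/
structure TState (ν E R D : ℕ) (W : S.W) (K : Finset (ℕ × List Bool)) (x : S.X (ν + 2 ^ ν))
    (F Φ : Finset (List Bool)) : Prop where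
  K_lay : ∀ p ∈ K, ν ≤ ex p.1 p.2.length ∧ ex p.1 p.2.length < lay ν D
  fut : Fut (W (ν + 2 ^ ν)) ∅ ((Xs ν).biUnion fib) x
  used : ((Xs ν).filter fun u => ¬ ∀ s ∈ fib u, s ∉ Tab x).card * 2 ^ 4 ≤ 2 ^ (ν - 1)
  forb : Φ.card * 2 ^ 4 ≤ 2 ^ (ν - 1)
  appr : ∀ x', Mv (Xs ν) fib x F Φ x' → ∀ e < E, ∀ m, ν ≤ ex e m → ex e m < lay ν D →
    2 ^ R * cnt m (fun z => ¬ ((e, z) ∈ K ↔
      ¬ AccE (S.rich (wd W (K : Set (ℕ × List Bool)) (ν + 2 ^ ν) x')) e z)) ≤ 2 ^ m

/-- The bound for the protected strings. -/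
def ft (ν E D c : ℕ) : ℕ :=
  pz (ν - 1) (2 ^ lay ν D) (E * 2 ^ lay ν D) ^ ((D + 1) * 2 ^ c + D)

/-- The game of a stage. -/
noncomputable def V1_G (ν E D : ℕ) (W : S.W) :
    GameA S (ν + 2 ^ ν) (List Bool) (ℕ × List Bool) (ℕ × ℕ) where
  X := Xs ν
  fib := fib
  Z := V1_Z ν E D
  gr := fun p => (p.1, p.2.length)
  Gr := fun _ => Finset.range E ×ˢ Finset.range (lay ν D)
  N0 := fun c => 2 ^ c.2
  acc := fun K p x => AccE (S.rich (wd W (V1_K ν E D K) (ν + 2 ^ ν) x)) p.1 p.2

private theorem V1_cert_mono {n q q' : ℕ} (hq : q ≤ q') {acc : S.X n → Prop} (h : Cert q acc) :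
    Cert q' acc := fun x hx => by
  obtain ⟨C, hC, h1⟩ := h x hx
  exact ⟨C, hC.trans hq, h1⟩

/-- PLAN. As `LibAV75.V1_ok` (LibAV75/V1.lean, proved). `len`: `fib_head`, `mem_Xs`. `cert`: `accE_cert`
(`wd W K N x = update (cw W K) N x` by definition), monotone in `q`. `sees`: `accE_wd_congr` (codes of the layers
`≥ l` are too long; as in the template). The other fields are those of the template. -/
theorem V1_ok {ν E β D : ℕ} (W : S.W) (hν : 1 ≤ ν) (hβ : E * lay ν D ≤ 2 ^ β) :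
    (V1_G ν E D W).Ok (ν - 1) (2 ^ lay ν D) (E * 2 ^ lay ν D) β where
  cardX := card_Xs ν
  len := by
    intro u hu s hs
    obtain ⟨h1, h2⟩ := (mem_Xs hν).1 hu
    have h3 := (fib_head h2 hs).2
    rw [h1] at h3
    exact h3
  dis := by
    intro x hx y hy hne
    have h1 := ((mem_Xs hν).1 hx).1
    have h2 := ((mem_Xs hν).1 hy).1
    exact fib_disjoint (h1.trans h2.symm) hne
  cert := by
    intro l z hz K
    obtain ⟨-, h1, -, h2⟩ := (V1_mem hν).1 hz
    have h3 : lay ν (l + 1) ≤ lay ν D := lay_mono hν h1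
    exact V1_cert_mono (Nat.pow_le_pow_right (by norm_num) (h2.le.trans h3))
      (accE_cert (cw W (V1_K ν E D K)) (ν + 2 ^ ν) z.1 z.2)
  sees := by
    have key : ∀ l, ∀ z ∈ V1_Z ν E D l, ∀ K K' : Finset (ℕ × List Bool),
        (∀ l' < l, ∀ p ∈ V1_Z ν E D l', (p ∈ K ↔ p ∈ K')) →
        ∀ s : List Bool, s.length < 2 ^ (ex z.1 z.2.length + 1) →
        s ∈ codes (V1_K ν E D K) → s ∈ codes (V1_K ν E D K') := by
      rintro l z hz K K' hKK s hs ⟨e', z', ⟨h1, l', h2⟩, rfl⟩
      rcases Nat.lt_or_ge l' l with h3 | h3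
      · exact ⟨e', z', ⟨(hKK l' h3 _ h2).1 h1, l', h2⟩, rfl⟩
      · exfalso
        obtain ⟨-, -, -, h4⟩ := (V1_mem hν).1 hz
        obtain ⟨-, -, h5, -⟩ := (V1_mem hν).1 h2
        have h6 : lay ν l ≤ lay ν l' := lay_mono hν h3
        have h7 := length_code e' z'
        have h8 : 2 ^ (ex z.1 z.2.length + 1) ≤ 2 ^ (ex e' z'.length + 1) ^ 2 := by
          apply Nat.pow_le_pow_right (by norm_num)
          have h9 : (lay ν l + 1) ^ 2 ≤ (ex e' z'.length + 1) ^ 2 := by
            apply Nat.pow_le_pow_left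
            have h10 : lay ν l' ≤ ex e' z'.length := h5
            omega
          have h11 : lay ν (l + 1) ≤ (lay ν l + 1) ^ 2 := by
            rw [lay_sq]
            exact Nat.pow_le_pow_left (Nat.le_succ _) 2
          omega
        omega
    intro l z hz K K' hKK x
    exact accE_wd_congr fun s hs => ⟨key l z hz K K' hKK s hs,
      key l z hz K' K (fun l' hl' p hp => (hKK l' hl' p hp).symm) s hs⟩
  disZ := by
    have key : ∀ l l', l < l' → Disjoint (V1_Z ν E D l) (V1_Z ν E D l') := by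
      intro l l' hl
      rw [Finset.disjoint_left]
      intro p hp hp'
      obtain ⟨-, -, -, h1⟩ := (V1_mem hν).1 hp
      obtain ⟨-, -, h2, -⟩ := (V1_mem hν).1 hp'
      have h3 : lay ν (l + 1) ≤ lay ν l' := lay_mono hν hl
      omega
    intro l l' hne
    rcases Nat.lt_or_gt_of_ne hne with h | h
    · exact key l l' h
    · exact (key l' l h).symm
  cardZ := by
    intro l
    refine (Finset.card_filter_le _ _).trans ?_
    rw [Finset.card_product, Finset.card_range]
    exact Nat.mul_le_mul_left _ (Pool.Agent.LibAV75.B2_strs_card _)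
  grZ := by
    intro l z hz
    obtain ⟨h0, h1, -, h2⟩ := (V1_mem hν).1 hz
    have h3 : lay ν (l + 1) ≤ lay ν D := lay_mono hν h1
    have h4 := le_ex z.1 z.2.length
    show (z.1, z.2.length) ∈ Finset.range E ×ˢ Finset.range (lay ν D)
    rw [Finset.mem_product, Finset.mem_range, Finset.mem_range]
    exact ⟨h0, by omega⟩
  cardG := by
    intro l
    show (Finset.range E ×ˢ Finset.range (lay ν D)).card ≤ 2 ^ β
    rw [Finset.card_product, Finset.card_range, Finset.card_range]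
    exact hβ
  posN := fun c => by
    show 0 < 2 ^ c.2
    positivity
  cardN := by
    intro l c _
    have key : ∀ (inst : DecidablePred fun z : ℕ × List Bool => (z.1, z.2.length) = c),
        (@Finset.filter _ (fun z : ℕ × List Bool => (z.1, z.2.length) = c) inst
          (V1_Z ν E D l)).card ≤ 2 ^ c.2 := by
      intro inst
      rw [← card_strs c.2]
      refine Finset.card_le_card_of_injOn (fun z => z.2) ?_ ?_
      · intro z hz
        have hz' := (Finset.mem_filter.1 (Finset.mem_coe.1 hz)).2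
        rw [Finset.mem_coe, mem_strs, ← hz']
      · intro z hz z' hz' hzz
        have h1 := (Finset.mem_filter.1 (Finset.mem_coe.1 hz)).2
        have h2 := (Finset.mem_filter.1 (Finset.mem_coe.1 hz')).2
        refine Prod.ext ?_ hzz
        have h3 : (z.1, z.2.length).1 = (z'.1, z'.2.length).1 := by rw [h1, h2]
        exact h3
    exact key _

/-- PLAN. As `LibAV75.v1` (proved, copy): `w6` for `V1_G`, `K₀ := ∅`, `x₀ := W (ν + 2 ^ ν)`; `hx₀`: the strings of
`fib u` start with `true` and have length `ν + 2 ^ ν`, those of `ps W` starting with `true` are shorter (`Old`,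
`mem_ps_len`, `code_no_head`). -/
theorem v1 (hS : Sim S) {ν E R β D : ℕ} (W : S.W) (hν : 1 ≤ ν) (hold : Old ν (ps W))
    (hβ : E * lay ν D ≤ 2 ^ β) (hy : 8 ^ D * (R + β + 4) + 5 ≤ ν) :
    ∃ (K : Finset (ℕ × List Bool)) (x : S.X (ν + 2 ^ ν)) (F Φ : Finset (List Bool)),
      TState ν E R D W K x F Φ ∧ F.card + 1 ≤ ft ν E D (8 ^ D * (R + β + 4)) := by
  have hx₀ : ∀ u ∈ (V1_G ν E D W).X, ∀ s ∈ (V1_G ν E D W).fib u, s ∉ Tab (W (ν + 2 ^ ν)) := by
    intro u hu s hs hT
    obtain ⟨h1, h2⟩ := (mem_Xs hν).1 hu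
    obtain ⟨h3, h4⟩ := fib_head h2 hs
    rw [h1] at h4
    rcases hold s ((mem_ps_len h4).2 hT) with ⟨-, h5⟩ | ⟨e, z, rfl, -⟩
    · omega
    · exact code_no_head h3
  obtain ⟨K, x, F, Φ, hK, hfut, hused, hF, hΦ, happ⟩ :=
    w6 (R := R) (D := D) hS (V1_ok W hν hβ) (W (ν + 2 ^ ν)) hx₀ ∅
  have hKlay : ∀ p ∈ K, ∃ l, p ∈ V1_Z ν E D l := by
    intro p hp
    by_contra hcon
    push Not at hcon
    exact absurd ((hK p hcon).1 hp) (Finset.notMem_empty p)
  have hKK : V1_K ν E D K = (K : Set (ℕ × List Bool)) := by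
    ext p
    constructor
    · rintro ⟨h1, -⟩
      exact h1
    · intro h1
      exact ⟨h1, hKlay p h1⟩
  refine ⟨K, x, F, Φ, ⟨?_, ?_, ?_, hΦ, ?_⟩, hF⟩
  · intro p hp
    obtain ⟨l, hl⟩ := hKlay p hp
    obtain ⟨-, h1, h2, h3⟩ := (V1_mem hν).1 hl
    have h4 : lay ν 0 ≤ lay ν l := lay_mono hν (Nat.zero_le l)
    have h5 : lay ν (l + 1) ≤ lay ν D := lay_mono hν h1
    rw [V1_lay0] at h4
    exact ⟨h4.trans h2, h3.trans_le h5⟩
  · have h1 : (Xs ν).biUnion fib = (V1_G ν E D W).X.biUnion (V1_G ν E D W).fib := by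
      ext s
      simp only [Finset.mem_biUnion]
      exact Iff.rfl
    refine ⟨hfut.1, ?_, hfut.2.2⟩
    rw [h1]
    convert hfut.2.1
  · refine (Nat.mul_le_mul_right (2 ^ 4) hused).trans ?_
    rw [← pow_add]
    exact Nat.pow_le_pow_right (by norm_num) (by omega)
  · intro x' hx' e he m hm hmD
    obtain ⟨l, hl, h1, h2⟩ := V1_layer hm hmD
    have hmL : m < lay ν D := (le_ex e m).trans hmD
    have h3 := happ x' hx' l hl (e, m) (by
      show (e, m) ∈ Finset.range E ×ˢ Finset.range (lay ν D)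
      rw [Finset.mem_product, Finset.mem_range, Finset.mem_range]
      exact ⟨he, hmL⟩)
    refine le_trans (Nat.mul_le_mul_left _ ?_) h3
    refine Pool.Agent.LibAV75.B2_cnt_le _ (fun z => (e, z))
      (fun a b hab => (Prod.mk.injEq _ _ _ _ ▸ hab).2) ?_
    intro z hz h4
    simp only [Finset.mem_filter]
    refine ⟨(V1_mem hν).2 ⟨he, hl, ?_, ?_⟩, ?_, ?_⟩
    · show lay ν l ≤ ex e z.length
      rw [hz]; exact h1
    · show ex e z.length < lay ν (l + 1)
      rw [hz]; exact h2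
    · show (e, z.length) = (e, m)
      rw [hz]
    · show ¬ ((e, z) ∈ K ↔ ¬ AccE (S.rich (wd W (V1_K ν E D K) (ν + 2 ^ ν) x')) e z)
      rw [hKK]
      exact h4

end Pool.Agent.LibAA75
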