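import Pool.Agent.LibAA75.V1
import Pool.Agent.LibAA75.B4
import Pool.Agent.LibAA75.B5D
import Pool.Agent.LibAV75.V2

/-!
Row V2: one stage of the two-sided construction.
-/

namespace Pool.Agent.LibAA75

open Filter Function Pool.Agent.LibNexp Pool.Agent.LibBHN Pool.Agent.LibAL48
open Pool.Agent.LibAV75 (ex AccE code codes fib lay WL orc orc_iff err prog le_ex length_code
  code_head code_injective code_far lay_mono lay_sq mem_fib card_fib fib_disjoint fib_head Old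
  Xs mem_Xs card_Xs V1_Z V1_mem V1_K V1_lay0 V1_layer)
open Pool.Agent.LibAA59 (SysA Tab Same Fut Cert Sim Dead MM KK gb GameA Mv pz w6 w7 pz_num)

variable {S : SysA}

/-- What one stage does. -/
structure StageT (n n' E R D : ℕ) (W W' : S.W) : Prop where
  keep : ∀ N < n + 2 ^ n, W' N = W N
  sub : ps W ⊆ ps W'
  new : ∀ s ∈ ps W', s ∈ ps W ∨ ([true] <+: s ∧ s.length = n + 2 ^ n) ∨
    ∃ e z, s = code e z ∧ n ≤ ex e z.length ∧ ex e z.length < n'
  exact : ∀ (e : ℕ) (z : List Bool), lay n D ≤ ex e z.length → ex e z.length < n' →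
    (code e z ∈ ps W' ↔ ¬ AccE (S.rich W') e z)
  appr : ∀ e < E, ∀ m, n ≤ ex e m → ex e m < lay n D →
    2 ^ R * cnt m (fun z => ¬ (code e z ∈ ps W' ↔ ¬ AccE (S.rich W') e z)) ≤ 2 ^ m

/-- Machine number `j` (with the rich oracle) accepts a string of length `n` in the language of the
`x` with `true :: x` in `WitLang` (with the plain oracle), or it rejects more than half of the strings
although they are not in the language. -/
def GI (j n : ℕ) (W : S.W) : Prop :=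
  (∃ x : List Bool, x.length = n ∧ AccE (S.rich W) j x ∧ true :: x ∈ WitLang (S.plain W)) ∨
    2 ^ n < 2 * cnt n fun x => ¬ AccE (S.rich W) j x ∧ true :: x ∉ WitLang (S.plain W)

/-- A string is in the language of witnesses. PLAN. `mem_fib`, `mem_ps_len` (a witness of `true :: x` makes a
string of length `n + 1 + 2 ^ (n + 1)`). -/
theorem wit_iff {W : S.W} {n : ℕ} {x : List Bool} (hx : x.length = n) :
    true :: x ∈ WitLang (S.plain W) ↔
      ∃ s ∈ fib (true :: x), s ∈ Tab (W (n + 1 + 2 ^ (n + 1))) := by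
  have hl : ∀ w : List Bool, w.length = 2 ^ (true :: x).length →
      ((true :: x) ++ w).length = n + 1 + 2 ^ (n + 1) := by
    intro w hw
    rw [List.length_append, hw, List.length_cons, hx]
  constructor
  · rintro ⟨w, hw, ho⟩
    exact ⟨(true :: x) ++ w, mem_fib.2 ⟨w, hw, rfl⟩, (mem_ps_len (hl w hw)).1 ho⟩
  · rintro ⟨s, hs, hsT⟩
    obtain ⟨w, hw, rfl⟩ := mem_fib.1 hs
    exact ⟨w, hw, (mem_ps_len (hl w hw)).2 hsT⟩

/-- PLAN. As `LibAV75.gi_local` (LibAV75/V2.lean): `accE_congr`, `wit_iff`; `V2_cnt_congr` of LibAV75. -/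
theorem gi_local {j n M : ℕ} (h1 : 2 ^ (ex j n + 1) ≤ M) (h2 : n + 1 + 2 ^ (n + 1) < M) :
    Local (S := S) M (GI j n) := by
  intro W W' h hG
  have hacc : ∀ x : List Bool, x.length = n →
      (AccE (S.rich W) j x ↔ AccE (S.rich W') j x) := fun x hx =>
    accE_congr fun N hN => h N (lt_of_lt_of_le hN (by rw [hx]; exact h1))
  have hwit : ∀ x : List Bool, x.length = n →
      (true :: x ∈ WitLang (S.plain W) ↔ true :: x ∈ WitLang (S.plain W')) := fun x hx => by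
    rw [wit_iff hx, wit_iff hx, h _ h2]
  rcases hG with ⟨x, hx, ha, hw⟩ | hc
  · exact Or.inl ⟨x, hx, (hacc x hx).1 ha, (hwit x hx).1 hw⟩
  · right
    have e1 : cnt n (fun x => ¬ AccE (S.rich W) j x ∧ true :: x ∉ WitLang (S.plain W)) =
        cnt n (fun x => ¬ AccE (S.rich W') j x ∧ true :: x ∉ WitLang (S.plain W')) := by
      refine Pool.Agent.LibAV75.V2_cnt_congr fun x hx => ?_
      rw [hacc x hx, hwit x hx]
    rwa [e1] at hc

private theorem V2_mem_filter {α : Type} {X : Finset α} {P : α → Prop} {inst : DecidablePred P}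
    {a : α} (h : a ∈ @Finset.filter α P inst X) : a ∈ X ∧ P a := Finset.mem_filter.1 h

/-- PLAN. As `LibAV75.v2` (LibAV75/V2.lean, proved: read it); for `ps`, `keep`, `sub`, `new` see also the
plan of row B5 (B5.lean). Put `N₀ := ν + 2 ^ ν`. `v1` gives `K`, `x`, `F`, `Φ`. `w7` with `X := Xs ν`,
`n := ν - 1`, `acc u y := AccE (S.rich (wd W K N₀ y)) j u.tail`, `q := 2 ^ ex j (ν - 1)` gives `x'`;
`V₁ := wd W K N₀ x'`, `GI j (ν - 1) V₁` by `wit_iff` (`ν - 1 + 1 + 2 ^ (ν - 1 + 1) = N₀`; `wd_self`).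
`b4 V₁ (lay ν D) ν'` gives `K₂`, `W' := cw V₁ K₂`; `gi_local`, `cw_low`. `appr` from `TState.appr`. -/
theorem v2 (hS : Sim S) {ν ν' E R β D j : ℕ} {W : S.W} (hν : 1 ≤ ν) (hold : Old ν (ps W))
    (hβ : E * lay ν D ≤ 2 ^ β) (hy : 8 ^ D * (R + β + 4) + 5 ≤ ν) (hν' : lay ν D ≤ ν')
    (hsize : ft ν E D (8 ^ D * (R + β + 4)) + 2 ^ ex j (ν - 1) < 2 ^ 2 ^ ν)
    (h1 : 2 ^ (ex j (ν - 1) + 1) ≤ 2 ^ (lay ν D + 1) ^ 2) (h2 : ν + 2 ^ ν < 2 ^ (lay ν D + 1) ^ 2) :
    ∃ W' : S.W, StageT ν ν' E R D W W' ∧ GI j (ν - 1) W' := by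
  obtain ⟨μ, rfl⟩ : ∃ μ, ν = μ + 1 := ⟨ν - 1, by omega⟩
  obtain ⟨K, x, F, Φ, hT, hF⟩ := v1 (R := R) hS W hν hold hβ hy
  have hX : ∀ u ∈ Xs (μ + 1), u.length = μ + 1 ∧ ∃ y, u = true :: y ∧ y.length = μ := by
    intro u hu
    obtain ⟨h3, h4⟩ := (mem_Xs hν).1 hu
    obtain ⟨y, rfl⟩ := h4
    refine ⟨h3, y, rfl, ?_⟩
    simp only [List.cons_append, List.nil_append, List.length_cons] at h3
    omega
  have hreg : ∀ u ∈ Xs (μ + 1), ∀ s ∈ fib u, [true] <+: s ∧ s.length = μ + 1 + 2 ^ (μ + 1) := by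
    intro u hu s hs
    obtain ⟨hxn, hxt⟩ := (mem_Xs hν).1 hu
    obtain ⟨h3, h4⟩ := fib_head hxt hs
    rw [hxn] at h4
    exact ⟨h3, h4⟩
  obtain ⟨x', hMv, hor⟩ := w7 (X := Xs (μ + 1)) (fib := fib)
    (acc := fun u y => AccE (S.rich (wd W (K : Set (ℕ × List Bool)) (μ + 1 + 2 ^ (μ + 1)) y)) j
      u.tail)
    (n := μ) (q := 2 ^ ex j μ) (x := x) (F := F) (Φ := Φ) (card_Xs (μ + 1))
    (fun u hu s hs => (hreg u hu s hs).2)
    (fun u hu => by
      obtain ⟨-, y, rfl, hyn⟩ := hX u hu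
      have h3 := accE_cert (cw W (K : Set (ℕ × List Bool))) (μ + 1 + 2 ^ (μ + 1)) j y
      rw [hyn] at h3
      exact h3)
    (fun u hu => by
      rw [card_fib, (hX u hu).1]
      rw [Nat.add_sub_cancel] at hsize
      omega)
    hT.used hT.forb
  obtain ⟨V₁, hV₁⟩ : ∃ V₁ : S.W,
      V₁ = wd W (K : Set (ℕ × List Bool)) (μ + 1 + 2 ^ (μ + 1)) x' := ⟨_, rfl⟩
  -- membership in the language of witnesses
  have hwit : ∀ y : List Bool, y.length = μ →
      (true :: y ∈ WitLang (S.plain V₁) ↔ ∃ s ∈ fib (true :: y), s ∈ Tab x') := by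
    intro y hy
    rw [wit_iff hy, hV₁, wd_self]
  have hGI : GI j μ V₁ := by
    rcases hor with ⟨u, hu, hacc, hs⟩ | hc
    · left
      obtain ⟨-, y, rfl, hyn⟩ := hX u hu
      refine ⟨y, hyn, ?_, (hwit y hyn).2 hs⟩
      rw [hV₁]
      exact hacc
    · right
      refine lt_of_lt_of_le hc (Nat.mul_le_mul_left 2
        (Pool.Agent.LibAV75.V2_cnt_ge _ fun u hu => ?_))
      obtain ⟨hu1, hu2, hu3⟩ := V2_mem_filter hu
      obtain ⟨-, y, rfl, hyn⟩ := hX u hu1
      refine ⟨y, rfl, hyn, ?_, ?_⟩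
      · rw [hV₁]
        exact hu2
      · rw [hwit y hyn]
        rintro ⟨s, hs1, hs2⟩
        exact hu3 s hs1 hs2
  obtain ⟨K₂, hK₂, hK₂'⟩ := b4 V₁ (lay (μ + 1) D) ν'
  have hlay : μ + 1 ≤ lay (μ + 1) D := by
    have h1 := lay_mono hν (Nat.zero_le D)
    rwa [V1_lay0] at h1
  have hN₀ : μ + 1 + 2 ^ (μ + 1) ≤ 2 ^ (μ + 1 + 1) ^ 2 := wit_le (μ + 1)
  have hpow : 2 ^ (μ + 1 + 1) ^ 2 ≤ 2 ^ (lay (μ + 1) D + 1) ^ 2 :=
    Nat.pow_le_pow_right (by norm_num) (Nat.pow_le_pow_left (Nat.succ_le_succ hlay) 2)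
  -- the strings at the level of the witnesses
  have hsubT : Tab (W (μ + 1 + 2 ^ (μ + 1))) ⊆ Tab x' := by
    rcases hMv with rfl | ⟨u, -, -, -, hfut⟩
    · exact hT.fut.1
    · exact hT.fut.1.trans hfut.1
  have hTx : ∀ s ∈ Tab x, s ∈ Tab (W (μ + 1 + 2 ^ (μ + 1))) ∨ [true] <+: s := by
    intro s hs
    rcases hT.fut.2.1 hs with h | h
    · exact Or.inl h
    · obtain ⟨u, hu, hsu⟩ := Finset.mem_biUnion.1 (Finset.mem_coe.1 h)
      exact Or.inr (hreg u hu s hsu).1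
  have hTx' : ∀ s ∈ Tab x', s ∈ Tab (W (μ + 1 + 2 ^ (μ + 1))) ∨ [true] <+: s := by
    intro s hs
    rcases hMv with rfl | ⟨u, hu, -, -, hfut⟩
    · exact hTx s hs
    · rcases hfut.2.1 hs with h | h
      · exact hTx s h
      · exact Or.inr (hreg u hu s (Finset.mem_coe.1 h)).1
  -- the plain oracle of the new world
  have hmem : ∀ s ∈ ps (cw V₁ K₂), s ∈ ps W ∨ ([true] <+: s ∧ s.length = μ + 1 + 2 ^ (μ + 1)) ∨
      s ∈ codes (K : Set (ℕ × List Bool)) ∨ s ∈ codes K₂ := by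
    intro s hs
    rcases mem_ps_cw.1 hs with h | h
    · rw [hV₁] at h
      by_cases hl : s.length = μ + 1 + 2 ^ (μ + 1)
      · rcases hTx' s ((mem_ps_wd_eq hl).1 h) with h3 | h3
        · exact Or.inl ((mem_ps_len hl).2 h3)
        · exact Or.inr (Or.inl ⟨h3, hl⟩)
      · rcases (mem_ps_wd_ne hl).1 h with h3 | h3
        · exact Or.inl h3
        · exact Or.inr (Or.inr (Or.inl h3))
    · exact Or.inr (Or.inr (Or.inr h))
  have hmemK : ∀ (e : ℕ) (z : List Bool), μ + 1 ≤ ex e z.length → code e z ∈ ps (cw V₁ K₂) →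
      (e, z) ∈ K ∨ (e, z) ∈ K₂ := by
    intro e z hez hm
    rcases hmem _ hm with h | ⟨h, -⟩ | ⟨e', z', hK, h⟩ | ⟨e', z', hK, h⟩
    · rcases hold _ h with ⟨h3, -⟩ | ⟨e', z', h3, h4⟩
      · exact (code_no_head h3).elim
      · obtain ⟨rfl, rfl⟩ := code_injective h3
        omega
    · exact (code_no_head h).elim
    · obtain ⟨rfl, rfl⟩ := code_injective h
      exact Or.inl hK
    · obtain ⟨rfl, rfl⟩ := code_injective h
      exact Or.inr hK
  -- statements of small exponent do not see the codes of `K₂`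
  have hsee : ∀ (e : ℕ) (z : List Bool), ex e z.length < lay (μ + 1) D →
      (AccE (S.rich (cw V₁ K₂)) e z ↔ AccE (S.rich V₁) e z) := by
    intro e z hez
    refine accE_congr fun N hN => cw_low (fun p hp => (hK₂ p hp).1) ?_
    refine hN.le.trans (Nat.pow_le_pow_right (by norm_num) ?_)
    nlinarith
  refine ⟨cw V₁ K₂, ⟨?_, ?_, ?_, ?_, ?_⟩, ?_⟩
  · intro N hN
    have e1 : cw V₁ K₂ N = V₁ N := cw_low (fun p hp => (hK₂ p hp).1) (by omega)
    rw [e1, hV₁, wd_ne W _ x' (by omega)]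
    exact cw_low (a := μ + 1) (fun p hp => (hT.K_lay p (Finset.mem_coe.1 hp)).1) (by omega)
  · intro s hs
    refine mem_ps_cw.2 (Or.inl ?_)
    rw [hV₁]
    by_cases hl : s.length = μ + 1 + 2 ^ (μ + 1)
    · exact (mem_ps_wd_eq hl).2 (hsubT ((mem_ps_len hl).1 hs))
    · exact (mem_ps_wd_ne hl).2 (Or.inl hs)
  · intro s hs
    rcases hmem s hs with h | h | ⟨e, z, hK, h⟩ | ⟨e, z, hK, h⟩
    · exact Or.inl h
    · exact Or.inr (Or.inl h)
    · have h3 := hT.K_lay _ (Finset.mem_coe.1 hK)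
      exact Or.inr (Or.inr ⟨e, z, h, h3.1, h3.2.trans_le hν'⟩)
    · have h3 := hK₂ _ hK
      exact Or.inr (Or.inr ⟨e, z, h, hlay.trans h3.1, h3.2⟩)
  · intro e z h3 h4
    constructor
    · intro hm
      rcases hmemK e z (hlay.trans h3) hm with hK | hK
      · have h5 := hT.K_lay _ hK
        simp only at h5
        omega
      · exact (hK₂' e z h3 h4).1 hK
    · intro hacc
      exact mem_ps_cw.2 (Or.inr ⟨e, z, (hK₂' e z h3 h4).2 hacc, rfl⟩)
  · intro e he m h3 h4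
    have hle : cnt m (fun z => ¬ (code e z ∈ ps (cw V₁ K₂) ↔ ¬ AccE (S.rich (cw V₁ K₂)) e z)) ≤
        cnt m (fun z => ¬ ((e, z) ∈ K ↔ ¬ AccE (S.rich (wd W (K : Set (ℕ × List Bool))
          (μ + 1 + 2 ^ (μ + 1)) x')) e z)) := by
      refine Pool.Agent.LibAV75.V2_cnt_mono fun z hz hzz hK => hzz ?_
      have h5 : code e z ∈ ps (cw V₁ K₂) ↔ (e, z) ∈ K := by
        constructor
        · intro hm
          rcases hmemK e z (by rw [hz]; exact h3) hm with hK | hK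
          · exact hK
          · have h6 := (hK₂ _ hK).1
            simp only at h6
            rw [hz] at h6
            omega
        · intro hK
          have hc : code e z ∈ codes (K : Set (ℕ × List Bool)) :=
            ⟨e, z, Finset.mem_coe.2 hK, rfl⟩
          have h6 := codes_len (a := μ + 1)
            (fun p hp => (hT.K_lay p (Finset.mem_coe.1 hp)).1) hc
          refine mem_ps_cw.2 (Or.inl ?_)
          rw [hV₁]
          exact (mem_ps_wd_ne (by omega)).2 (Or.inr hc)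
      rw [h5, hsee e z (by rw [hz]; exact h4), hV₁]
      exact hK
    exact le_trans (Nat.mul_le_mul_left _ hle) (hT.appr x' hMv e he m h3 h4)
  · rw [Nat.add_sub_cancel] at h1 ⊢
    exact gi_local (M := 2 ^ (lay (μ + 1) D + 1) ^ 2) h1 h2 V₁ _
      (fun N hN => (cw_low (fun p hp => (hK₂ p hp).1) hN.le).symm) hGI

end Pool.Agent.LibAA75
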