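import Pool.Agent.LibAA75.V2

/-!
Row V3: the limit world of the two-sided construction.
-/

namespace Pool.Agent.LibAA75

open Filter Function Pool.Agent.LibNexp Pool.Agent.LibBHN Pool.Agent.LibAL48
open Pool.Agent.LibAV75 (ex AccE code codes fib lay WL orc orc_iff err prog le_ex length_code
  code_head code_injective code_far lay_mono lay_sq mem_fib card_fib fib_disjoint fib_head Old
  Xs mem_Xs card_Xs V1_Z V1_mem V1_K V1_lay0 V1_layer)
open Pool.Agent.LibAA59 (SysA Tab Same Fut Cert Sim Dead MM KK gb GameA Mv pz w6 w7 pz_num)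

variable {S : SysA}

private theorem v3_cnt_mono {m : ℕ} {P Q : List Bool → Prop}
    (h : ∀ z : List Bool, z.length = m → P z → Q z) : cnt m P ≤ cnt m Q := by
  classical
  unfold cnt
  refine Finset.card_le_card fun t ht => ?_
  rw [Finset.mem_filter] at ht ⊢
  exact ⟨ht.1, h _ (length_bits m t) ht.2⟩

private theorem v3_old {a b : ℕ} (h : a ≤ b) {A : Set (List Bool)} (hA : Old a A) : Old b A := by
  intro s hs
  rcases hA s hs with ⟨h1, h2⟩ | ⟨e, z, h1, h2⟩
  · have h3 : 2 ^ a ≤ 2 ^ b := Nat.pow_le_pow_right (by norm_num) h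
    exact Or.inl ⟨h1, by omega⟩
  · exact Or.inr ⟨e, z, h1, h2.trans_le h⟩

/-- PLAN. As `LibAV75.v3` (LibAV75/V3.lean, proved); the limit is taken level by level as in the plan of row B6
(B6.lean). -/
theorem v3 (hS : Sim S) {n E R D β j : ℕ → ℕ} (hn : ∀ i, 1 ≤ n i)
    (hnn : ∀ i, (lay (n i) (D i) + 1) ^ 2 ≤ n (i + 1))
    (hβ : ∀ i, E i * lay (n i) (D i) ≤ 2 ^ β i)
    (hy : ∀ i, 8 ^ D i * (R i + β i + 4) + 5 ≤ n i)
    (hsize : ∀ i, ft (n i) (E i) (D i) (8 ^ D i * (R i + β i + 4)) + 2 ^ ex (j i) (n i - 1) <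
      2 ^ 2 ^ n i)
    (h1 : ∀ i, 2 ^ (ex (j i) (n i - 1) + 1) ≤ 2 ^ (lay (n i) (D i) + 1) ^ 2)
    (h2 : ∀ i, n i + 2 ^ n i < 2 ^ (lay (n i) (D i) + 1) ^ 2) :
    ∃ W : S.W, (∀ l, false :: l ∈ ps W → ∃ e z, false :: l = code e z) ∧
      (∀ (i e : ℕ) (z : List Bool), lay (n i) (D i) ≤ ex e z.length →
        ex e z.length < n (i + 1) → (code e z ∈ ps W ↔ ¬ AccE (S.rich W) e z)) ∧
      (∀ i, ∀ e < E i, ∀ m, n i ≤ ex e m → ex e m < lay (n i) (D i) →
        2 ^ R i * cnt m (fun z => ¬ (code e z ∈ ps W ↔ ¬ AccE (S.rich W) e z)) ≤ 2 ^ m) ∧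
      ∀ i, GI (j i) (n i - 1) W := by
  have hlay : ∀ i, n i ≤ lay (n i) (D i) := by
    intro i
    have h1 := lay_mono (hn i) (Nat.zero_le (D i))
    have h2 : lay (n i) 0 = n i := by simp [lay]
    rwa [h2] at h1
  have hlay' : ∀ i, lay (n i) (D i) < n (i + 1) := by
    intro i
    have h1 := hnn i
    nlinarith
  have hlt : ∀ i, n i < n (i + 1) := fun i => (hlay i).trans_lt (hlay' i)
  have hmono : StrictMono n := strictMono_nat_of_lt_succ hlt
  have hle : ∀ i, i ≤ n i := fun i => hmono.le_apply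
  have hL : ∀ i, Local (S := S) (2 ^ (lay (n i) (D i) + 1) ^ 2) (GI (j i) (n i - 1)) := by
    intro i
    refine gi_local (h1 i) ?_
    have h3 := h2 i
    have h4 := hn i
    rw [Nat.sub_add_cancel h4]
    exact h3
  -- one stage
  have hstep : ∀ (i : ℕ) (W : {W : S.W // Old (n i) (ps W)}),
      ∃ W' : {W : S.W // Old (n (i + 1)) (ps W)},
        StageT (n i) (n (i + 1)) (E i) (R i) (D i) W.1 W'.1 ∧ GI (j i) (n i - 1) W'.1 := by
    intro i W
    obtain ⟨W', h3, h4⟩ := v2 hS (hn i) W.2 (hβ i) (hy i) (hlay' i).le (hsize i) (h1 i) (h2 i)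
    refine ⟨⟨W', fun s hs => ?_⟩, h3, h4⟩
    rcases h3.new s hs with hsA | ⟨h5, h6⟩ | ⟨e, z, h5, -, h7⟩
    · exact v3_old (hlt i).le W.2 s hsA
    · have h8 : 2 ^ n i ≤ 2 ^ n (i + 1) := Nat.pow_le_pow_right (by norm_num) (hlt i).le
      have h9 := hlt i
      exact Or.inl ⟨h5, by omega⟩
    · exact Or.inr ⟨e, z, h5, h7⟩
  choose st hst1 hst2 using hstep
  have h0 : Old (n 0) (ps (S := S) fun N => std S N fun _ => false) := by
    intro s hs
    exfalso
    rw [mem_ps_len rfl] at hs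
    have h3 := hs.2
    rw [std_spec _ _ rfl] at h3
    exact absurd h3 (by simp)
  set w : ∀ i, {W : S.W // Old (n i) (ps W)} :=
    fun i => Nat.rec ⟨fun N => std S N fun _ => false, h0⟩ (fun i prev => st i prev) i with hwdef
  have hw1 : ∀ i, w (i + 1) = st i (w i) := fun i => rfl
  have hStage : ∀ i, StageT (n i) (n (i + 1)) (E i) (R i) (D i) (w i).1 (w (i + 1)).1 := by
    intro i
    rw [hw1]
    exact hst1 i (w i)
  have hGi : ∀ i, GI (j i) (n i - 1) (w (i + 1)).1 := by
    intro i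
    rw [hw1]
    exact hst2 i (w i)
  have hkeep : ∀ i d N, N < n i + 2 ^ n i → (w (i + d)).1 N = (w i).1 N := by
    intro i d N hN
    induction d with
    | zero => rfl
    | succ d ih =>
      have h3 : n i ≤ n (i + d) := hmono.monotone (Nat.le_add_right i d)
      have h4 : 2 ^ n i ≤ 2 ^ n (i + d) := Nat.pow_le_pow_right (by norm_num) h3
      exact ((hStage (i + d)).keep N (by omega)).trans ih
  set V : S.W := fun N => (w (N + 1)).1 N with hVdef
  have hV : ∀ i N, N < n i + 2 ^ n i → V N = (w i).1 N := by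
    intro i N hN
    show (w (N + 1)).1 N = (w i).1 N
    rcases Nat.le_total i (N + 1) with h | h
    · obtain ⟨d, hd⟩ := Nat.exists_eq_add_of_le h
      rw [hd]
      exact hkeep i d N hN
    · obtain ⟨d, hd⟩ := Nat.exists_eq_add_of_le h
      rw [hd]
      refine (hkeep (N + 1) d N ?_).symm
      have h3 := hle (N + 1)
      have h4 := Nat.two_pow_pos (n (N + 1))
      omega
  have hVlow : ∀ i N, N < 2 ^ n i → V N = (w i).1 N := fun i N hN => hV i N (by omega)
  have hbig : ∀ i (s : List Bool), V s.length = (w (i + (s.length + 1))).1 s.length := by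
    intro i s
    have h3 := hle (i + (s.length + 1))
    have h4 := Nat.two_pow_pos (n (i + (s.length + 1)))
    exact hV (i + (s.length + 1)) s.length (by omega)
  have hSmono : ∀ i d, ps (w i).1 ⊆ ps (w (i + d)).1 := by
    intro i d
    induction d with
    | zero => exact fun s hs => hs
    | succ d ih => exact ih.trans (hStage (i + d)).sub
  have hsub : ∀ i, ps (w i).1 ⊆ ps V := by
    intro i s hs
    exact (mem_ps_of (hbig i s)).2 (hSmono i (s.length + 1) hs)
  -- the strings added later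
  have hlate : ∀ i d, ∀ s ∈ ps (w (i + d)).1, s ∉ ps (w i).1 →
      ([true] <+: s ∧ n i + 2 ^ n i ≤ s.length) ∨
        ∃ e z, s = code e z ∧ n i ≤ ex e z.length := by
    intro i d
    induction d with
    | zero => exact fun s hs hs' => absurd hs hs'
    | succ d ih =>
      intro s hs hs'
      have h4 : n i ≤ n (i + d) := hmono.monotone (Nat.le_add_right i d)
      rcases (hStage (i + d)).new s hs with h3 | ⟨h5, h6⟩ | ⟨e, z, h5, h6, -⟩
      · exact ih s h3 hs'
      · have h7 : 2 ^ n i ≤ 2 ^ n (i + d) := Nat.pow_le_pow_right (by norm_num) h4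
        exact Or.inl ⟨h5, by omega⟩
      · exact Or.inr ⟨e, z, h5, h4.trans h6⟩
  have hlateV : ∀ i, ∀ s ∈ ps V, s ∉ ps (w i).1 →
      ([true] <+: s ∧ n i + 2 ^ n i ≤ s.length) ∨
        ∃ e z, s = code e z ∧ n i ≤ ex e z.length := by
    intro i s hs hs'
    exact hlate i (s.length + 1) s ((mem_ps_of (hbig i s)).1 hs) hs'
  -- visibility
  have hsee : ∀ (i e : ℕ) (z : List Bool), ex e z.length < n i →
      (AccE (S.rich V) e z ↔ AccE (S.rich (w i).1) e z) := by
    intro i e z hez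
    refine accE_congr fun N hN => hVlow i N ?_
    have h5 : 2 ^ (ex e z.length + 1) ≤ 2 ^ n i := Nat.pow_le_pow_right (by norm_num) hez
    omega
  have hcode : ∀ (i e : ℕ) (z : List Bool), ex e z.length < n i →
      (code e z ∈ ps V ↔ code e z ∈ ps (w i).1) := by
    intro i e z hez
    refine ⟨fun h => ?_, fun h => hsub i h⟩
    by_contra h3
    rcases hlateV i _ h h3 with ⟨h4, -⟩ | ⟨e', z', h4, h5⟩
    · exact code_no_head h4
    · obtain ⟨rfl, rfl⟩ := code_injective h4
      omega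
  refine ⟨V, ?_, ?_, ?_, ?_⟩
  · intro l hl
    have h3 := (mem_ps_of (hbig 0 (false :: l))).1 hl
    rcases (w (0 + ((false :: l).length + 1))).2 _ h3 with ⟨⟨t, ht⟩, -⟩ | ⟨e, z, h3, -⟩
    · simp at ht
    · exact ⟨e, z, h3⟩
  · intro i e z h3 h4
    rw [hsee (i + 1) e z h4, hcode (i + 1) e z h4]
    exact (hStage i).exact e z h3 h4
  · intro i e he m h3 h4
    refine le_trans (Nat.mul_le_mul_left _ (v3_cnt_mono fun z hz hzz => ?_))
      ((hStage i).appr e he m h3 h4)
    have h5 : ex e z.length < n (i + 1) := by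
      rw [hz]
      exact h4.trans (hlay' i)
    rw [hsee (i + 1) e z h5, hcode (i + 1) e z h5] at hzz
    exact hzz
  · intro i
    refine hL i (w (i + 1)).1 V (fun N hN => (hVlow (i + 1) N ?_).symm) (hGi i)
    have h4 : 2 ^ (lay (n i) (D i) + 1) ^ 2 ≤ 2 ^ n (i + 1) :=
      Nat.pow_le_pow_right (by norm_num) (hnn i)
    omega

end Pool.Agent.LibAA75
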